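import Pool.Agent.Q23.DM.Mix

/-!
# Algebraic independence over `ℂ(t)` of solutions of difference equations of order one: germs at infinity
-/

set_option autoImplicit false

open Filter Topology Polynomial

namespace Pool.Agent.Q23.DM

abbrev GC := Germ (atTop : Filter ℝ) ℂ
abbrev KC := FractionRing ℂ[X]

/-- polynomials as germs at infinity -/
noncomputable def phi : ℂ[X] →+* GC where
  toFun P := ((fun t : ℝ => P.eval (t : ℂ)) : ℝ → ℂ)
  map_one' := by
    rw [← Germ.coe_one]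
    congr 1
    funext t
    simp
  map_mul' P Q := by
    rw [← Germ.coe_mul]
    congr 1
    funext t
    simp
  map_zero' := by
    rw [← Germ.coe_zero]
    congr 1
    funext t
    simp
  map_add' P Q := by
    rw [← Germ.coe_add]
    congr 1
    funext t
    simp

theorem poly_ne {P : ℂ[X]} (hP : P ≠ 0) : ∀ᶠ t : ℝ in atTop, P.eval (t : ℂ) ≠ 0 := by
  have h := (P.roots.toFinset.image Complex.re).finite_toSet
  obtain ⟨M, hM⟩ := h.bddAbove
  filter_upwards [eventually_gt_atTop M] with t ht h0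
  refine absurd (hM (Finset.mem_coe.2 (Finset.mem_image.2 ⟨(t : ℂ), ?_, Complex.ofReal_re t⟩))) (not_le.2 ht)
  rw [Multiset.mem_toFinset, mem_roots hP]
  exact h0

theorem phi_unit {P : ℂ[X]} (hP : P ≠ 0) : IsUnit (phi P) := by
  refine IsUnit.of_mul_eq_one (((fun t : ℝ => (P.eval (t : ℂ))⁻¹) : ℝ → ℂ) : GC) ?_
  show (((fun t : ℝ => P.eval (t : ℂ)) : ℝ → ℂ) : GC) * (((fun t : ℝ => (P.eval (t : ℂ))⁻¹) : ℝ → ℂ) : GC) = 1
  rw [← Germ.coe_mul, ← Germ.coe_one]
  refine Germ.coe_eq.2 ?_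
  filter_upwards [poly_ne hP] with t ht
  simp [ht]

/-- rational functions as germs at infinity -/
noncomputable def iota : KC →+* GC :=
  IsLocalization.lift (M := nonZeroDivisors ℂ[X]) (g := phi) (fun y => phi_unit (nonZeroDivisors.ne_zero y.2))

noncomputable instance : Algebra KC GC := iota.toAlgebra

theorem iota_poly (P : ℂ[X]) : iota (algebraMap ℂ[X] KC P) = phi P := IsLocalization.lift_eq _ _

theorem iota_div (P Q : ℂ[X]) (hQ : Q ≠ 0) :
    iota (algebraMap ℂ[X] KC P / algebraMap ℂ[X] KC Q) =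
      (((fun t : ℝ => P.eval (t : ℂ) / Q.eval (t : ℂ)) : ℝ → ℂ) : GC) := by
  have hQ' : algebraMap ℂ[X] KC Q ≠ 0 := by
    rw [Ne, IsFractionRing.to_map_eq_zero_iff]
    exact hQ
  have h1 : iota (algebraMap ℂ[X] KC P / algebraMap ℂ[X] KC Q) * phi Q = phi P := by
    rw [← iota_poly Q, ← map_mul, div_mul_cancel₀ _ hQ', iota_poly]
  have h2 : (((fun t : ℝ => P.eval (t : ℂ) / Q.eval (t : ℂ)) : ℝ → ℂ) : GC) * phi Q = phi P := by
    show (((fun t : ℝ => P.eval (t : ℂ) / Q.eval (t : ℂ)) : ℝ → ℂ) : GC) * (((fun t : ℝ => Q.eval (t : ℂ)) : ℝ → ℂ) : GC) =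
      (((fun t : ℝ => P.eval (t : ℂ)) : ℝ → ℂ) : GC)
    rw [← Germ.coe_mul]
    refine Germ.coe_eq.2 ?_
    filter_upwards [poly_ne hQ] with t ht
    simp only [Pi.mul_apply]
    field_simp
  exact (phi_unit hQ).mul_right_cancel (h1.trans h2.symm)

theorem shift_inj : Function.Injective (compRingHom (X + 1 : ℂ[X])) := by
  rw [injective_iff_map_eq_zero]
  intro P hP
  have h1 : P.comp (X + 1) = 0 := hP
  have h2 : (P.comp (X + 1)).comp (X - 1) = P := by
    rw [comp_assoc]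
    simp
  rw [h1, zero_comp] at h2
  exact h2.symm

/-- the shift on rational functions -/
noncomputable def sig : KC →+* KC := IsFractionRing.map shift_inj

theorem sig_poly (P : ℂ[X]) : sig (algebraMap ℂ[X] KC P) = algebraMap ℂ[X] KC (P.comp (X + 1)) :=
  IsLocalization.map_eq (M := nonZeroDivisors ℂ[X]) (T := nonZeroDivisors ℂ[X]) (S := KC) (Q := KC)
    (g := compRingHom (X + 1 : ℂ[X]))
    (nonZeroDivisors_le_comap_nonZeroDivisors_of_injective _ shift_inj) P

theorem tend1 : Tendsto (fun t : ℝ => t + 1) atTop atTop := tendsto_atTop_add_const_right _ _ tendsto_id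

/-- the shift on germs -/
noncomputable def Sh : GC →+* GC where
  toFun g := g.compTendsto (fun t : ℝ => t + 1) tend1
  map_one' := rfl
  map_zero' := rfl
  map_mul' f g := by
    induction f, g using Germ.inductionOn₂ with
    | _ f g => rfl
  map_add' f g := by
    induction f, g using Germ.inductionOn₂ with
    | _ f g => rfl

theorem Sh_coe (f : ℝ → ℂ) : Sh (f : GC) = ((fun t => f (t + 1) : ℝ → ℂ) : GC) := rfl

theorem Sh_iota (x : KC) : Sh (algebraMap KC GC x) = algebraMap KC GC (sig x) := by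
  have h : Sh.comp iota = iota.comp sig := by
    refine IsLocalization.ringHom_ext (nonZeroDivisors ℂ[X]) ?_
    ext P
    · simp only [RingHom.comp_apply]
      rw [iota_poly, sig_poly, iota_poly]
      show Sh (((fun t : ℝ => (C P).eval (t : ℂ)) : ℝ → ℂ) : GC) =
        (((fun t : ℝ => ((C P).comp (X + 1)).eval (t : ℂ)) : ℝ → ℂ) : GC)
      rw [Sh_coe]
      congr 1
      funext t
      simp
    · simp only [RingHom.comp_apply]
      rw [iota_poly, sig_poly, iota_poly]
      show Sh (((fun t : ℝ => (X : ℂ[X]).eval (t : ℂ)) : ℝ → ℂ) : GC) =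
        (((fun t : ℝ => ((X : ℂ[X]).comp (X + 1)).eval (t : ℂ)) : ℝ → ℂ) : GC)
      rw [Sh_coe]
      congr 1
      funext t
      simp
  exact RingHom.congr_fun h x

theorem alg_inj : Function.Injective (algebraMap ℂ[X] KC) := IsFractionRing.injective ℂ[X] KC

theorem alg_ne {Q : ℂ[X]} (hQ : Q ≠ 0) : algebraMap ℂ[X] KC Q ≠ 0 := fun h => hQ (alg_inj (by rw [h, map_zero]))

/-- eigenfunctions of the shift with constant eigenvalue are constant -/
theorem sig_semi {x : KC} {ρ : ℂ} (hx0 : x ≠ 0) (hx : sig x = algebraMap ℂ[X] KC (C ρ) * x) :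
    ρ = 1 ∧ ∃ r : ℂ, x = algebraMap ℂ[X] KC (C r) := by
  obtain ⟨P, Q, hQ, rfl⟩ := IsFractionRing.div_surjective (A := ℂ[X]) x
  have hQ0 : Q ≠ 0 := nonZeroDivisors.ne_zero hQ
  have hP0 : P ≠ 0 := by
    rintro rfl
    apply hx0
    simp
  have hsh : ∀ {R : ℂ[X]}, R ≠ 0 → R.comp (X + 1) ≠ 0 := fun {R} hR h =>
    hR (shift_inj (by show R.comp (X + 1) = _; rw [h, map_zero]))
  rw [map_div₀, sig_poly, sig_poly, ← mul_div_assoc, div_eq_div_iff (alg_ne (hsh hQ0)) (alg_ne hQ0), ← map_mul, ← map_mul,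
    ← map_mul] at hx
  have h1 := alg_inj hx
  have hdeg : ∀ R : ℂ[X], (R.comp (X + 1)).leadingCoeff = R.leadingCoeff := by
    intro R
    have : (X + 1 : ℂ[X]).natDegree = 1 := natDegree_X_add_C 1
    rw [leadingCoeff_comp (by rw [this]; exact one_ne_zero)]
    have h2 : (X + 1 : ℂ[X]).leadingCoeff = 1 := leadingCoeff_X_add_C 1
    rw [h2, one_pow, mul_one]
  have h2 := congrArg leadingCoeff h1
  rw [leadingCoeff_mul, leadingCoeff_mul, leadingCoeff_mul, leadingCoeff_C, hdeg, hdeg] at h2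
  have hlc : P.leadingCoeff * Q.leadingCoeff ≠ 0 :=
    mul_ne_zero (leadingCoeff_ne_zero.2 hP0) (leadingCoeff_ne_zero.2 hQ0)
  have hρ : ρ = 1 := by
    have h3 : (1 : ℂ) * (P.leadingCoeff * Q.leadingCoeff) = ρ * (P.leadingCoeff * Q.leadingCoeff) := by
      rw [one_mul]
      linear_combination h2
    exact (mul_right_cancel₀ hlc h3).symm
  refine ⟨hρ, ?_⟩
  rw [hρ, map_one, one_mul] at h1
  -- `P (t + 1) Q (t) = P (t) Q (t + 1)`
  obtain ⟨t0, ht0⟩ := (poly_ne hQ0).exists_forall_of_atTop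
  set r := P.eval (t0 : ℂ) / Q.eval (t0 : ℂ) with hr
  have h4 : ∀ n : ℕ, P.eval (((t0 + n : ℝ)) : ℂ) = r * Q.eval (((t0 + n : ℝ)) : ℂ) := by
    intro n
    induction n with
    | zero =>
      have := ht0 t0 le_rfl
      rw [hr]
      simp only [Nat.cast_zero, add_zero]
      field_simp
    | succ n ih =>
      have h5 := congrArg (eval (((t0 + n : ℝ)) : ℂ)) h1
      simp only [eval_mul, eval_comp, eval_add, eval_X, eval_one] at h5
      have h6 := ht0 (t0 + n) (by simp)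
      have h7 : (((t0 + ((n + 1 : ℕ) : ℝ) : ℝ)) : ℂ) = (((t0 + n : ℝ)) : ℂ) + 1 := by push_cast; ring
      rw [h7]
      have h8 : Q.eval (((t0 + n : ℝ)) : ℂ) * P.eval ((((t0 + n : ℝ)) : ℂ) + 1) =
          Q.eval (((t0 + n : ℝ)) : ℂ) * (r * Q.eval ((((t0 + n : ℝ)) : ℂ) + 1)) := by
        rw [ih] at h5
        linear_combination h5
      exact mul_left_cancel₀ h6 h8
  have h5 : P - C r * Q = 0 := by
    refine eq_zero_of_infinite_isRoot _ ?_
    refine Set.Infinite.mono (s := Set.range fun n : ℕ => (((t0 + n : ℝ)) : ℂ)) ?_ ?_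
    · rintro _ ⟨n, rfl⟩
      have h6 := h4 n
      show (P - C r * Q).eval (((t0 + n : ℝ)) : ℂ) = 0
      simp only [eval_sub, eval_mul, eval_C, h6, sub_self]
    · exact Set.infinite_range_of_injective fun m n h => by
        have := Complex.ofReal_injective h
        simpa using this
  refine ⟨r, ?_⟩
  have h8 : P = C r * Q := sub_eq_zero.1 h5
  rw [h8, map_mul, mul_div_cancel_right₀ _ (alg_ne hQ0)]

/-- polynomials in `t` and the functions, as germs -/
theorem germ_eval {Z : Type} [Fintype Z] (u : Z → ℝ → ℂ) (P : MvPolynomial (Option Z) ℂ) :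
    MvPolynomial.aeval (fun z => ((u z : ℝ → ℂ) : GC))
      (MvPolynomial.map (algebraMap ℂ[X] KC) (MvPolynomial.optionEquivRight ℂ Z P)) =
    (((fun t : ℝ => MvPolynomial.eval (fun o : Option Z => o.elim (t : ℂ) fun z => u z t) P) : ℝ → ℂ) : GC) := by
  let Ev : MvPolynomial (Option Z) ℂ →+* (ℝ → ℂ) :=
    Pi.ringHom fun t : ℝ => MvPolynomial.eval (fun o : Option Z => o.elim (t : ℂ) fun z => u z t)
  have h : ((MvPolynomial.aeval (fun z => ((u z : ℝ → ℂ) : GC)) : MvPolynomial Z KC →ₐ[KC] GC).toRingHom.comp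
      (MvPolynomial.map (algebraMap ℂ[X] KC))).comp (MvPolynomial.optionEquivRight ℂ Z).toAlgHom.toRingHom =
      (Germ.coeRingHom (atTop : Filter ℝ)).comp Ev := by
    refine MvPolynomial.ringHom_ext ?_ ?_
    · intro c
      have h1 : MvPolynomial.optionEquivRight ℂ Z (MvPolynomial.C c) = MvPolynomial.C (C c) := by simp
      show MvPolynomial.aeval (fun z => ((u z : ℝ → ℂ) : GC)) (MvPolynomial.map (algebraMap ℂ[X] KC)
        (MvPolynomial.optionEquivRight ℂ Z (MvPolynomial.C c))) = _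
      rw [h1, MvPolynomial.map_C, MvPolynomial.aeval_C]
      have h2 : algebraMap KC GC (algebraMap ℂ[X] KC (C c)) = phi (C c) := iota_poly _
      rw [h2]
      show (((fun t : ℝ => (C c).eval (t : ℂ)) : ℝ → ℂ) : GC) = ((Ev (MvPolynomial.C c) : ℝ → ℂ) : GC)
      congr 1
      funext t
      show _ = MvPolynomial.eval _ (MvPolynomial.C c)
      simp
    · rintro (_ | z)
      · have h1 : MvPolynomial.optionEquivRight ℂ Z (MvPolynomial.X none) = MvPolynomial.C X :=
          MvPolynomial.optionEquivRight_X_none ℂ Z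
        show MvPolynomial.aeval (fun z => ((u z : ℝ → ℂ) : GC)) (MvPolynomial.map (algebraMap ℂ[X] KC)
          (MvPolynomial.optionEquivRight ℂ Z (MvPolynomial.X none))) = _
        rw [h1, MvPolynomial.map_C, MvPolynomial.aeval_C]
        have h2 : algebraMap KC GC (algebraMap ℂ[X] KC X) = phi X := iota_poly _
        rw [h2]
        show (((fun t : ℝ => (X : ℂ[X]).eval (t : ℂ)) : ℝ → ℂ) : GC) = ((Ev (MvPolynomial.X none) : ℝ → ℂ) : GC)
        congr 1
        funext t
        show _ = MvPolynomial.eval _ (MvPolynomial.X none)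
        simp
      · have h1 : MvPolynomial.optionEquivRight ℂ Z (MvPolynomial.X (some z)) = MvPolynomial.X z :=
          MvPolynomial.optionEquivRight_X_some ℂ Z z
        show MvPolynomial.aeval (fun z => ((u z : ℝ → ℂ) : GC)) (MvPolynomial.map (algebraMap ℂ[X] KC)
          (MvPolynomial.optionEquivRight ℂ Z (MvPolynomial.X (some z)))) = _
        rw [h1, MvPolynomial.map_X, MvPolynomial.aeval_X]
        show ((u z : ℝ → ℂ) : GC) = ((Ev (MvPolynomial.X (some z)) : ℝ → ℂ) : GC)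
        congr 1
        funext t
        show _ = MvPolynomial.eval _ (MvPolynomial.X (some z))
        simp
  exact RingHom.congr_fun h P

/-- algebraic independence over the field of rational functions -/
theorem poly_of_algInd {Z : Type} [Fintype Z] (u : Z → ℝ → ℂ)
    (h : AlgebraicIndependent KC (fun z => ((u z : ℝ → ℂ) : GC))) (P : MvPolynomial (Option Z) ℂ)
    (hP : ∀ᶠ t : ℝ in atTop, MvPolynomial.eval (fun o : Option Z => o.elim (t : ℂ) fun z => u z t) P = 0) : P = 0 := by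
  have h1 := germ_eval u P
  have h2 : (((fun t : ℝ => MvPolynomial.eval (fun o : Option Z => o.elim (t : ℂ) fun z => u z t) P) : ℝ → ℂ) : GC) = 0 := by
    rw [← Germ.coe_zero]
    exact Germ.coe_eq.2 hP
  rw [h2] at h1
  have h3 := (algebraicIndependent_iff.1 h) _ h1
  have h4 : MvPolynomial.optionEquivRight ℂ Z P = 0 := by
    apply MvPolynomial.map_injective _ alg_inj
    rw [h3, map_zero]
  exact (map_eq_zero_iff _ (MvPolynomial.optionEquivRight ℂ Z).injective).1 h4

theorem pr_poly {μ : Type} (b : μ → ℂ[X]) (e : μ →₀ ℕ) :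
    pr (fun j => algebraMap ℂ[X] KC (b j)) e = algebraMap ℂ[X] KC (pr b e) := pr_map _ b e

/-- **Independence of solutions of difference equations of order one over `ℂ(t)`.** -/
theorem concreteC {κ μ : Type} [Fintype κ] [DecidableEq κ] [Fintype μ] [DecidableEq μ]
    (u : κ → ℝ → ℂ) (β : κ → ℂ) (N D : κ → ℂ[X]) (hβ : ∀ i, β i ≠ 0) (hD : ∀ i, D i ≠ 0)
    (hu : ∀ i, ∀ᶠ t : ℝ in atTop, u i (t + 1) = β i * u i t + (N i).eval (t : ℂ) / (D i).eval (t : ℂ))
    (v : μ → ℝ → ℂ) (b : μ → ℂ[X]) (hb : ∀ j, b j ≠ 0)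
    (hv : ∀ j, ∀ᶠ t : ℝ in atTop, v j (t + 1) = (b j).eval (t : ℂ) * v j t) (hv0 : ∀ j, ∀ᶠ t : ℝ in atTop, v j t ≠ 0)
    (hA : ∀ (β0 : ℂ) (c : κ → ℂ) (A B : ℂ[X]), B ≠ 0 → (∀ i, β i ≠ β0 → c i = 0) →
      (∀ᶠ t : ℝ in atTop, ∑ i, c i * ((N i).eval (t : ℂ) / (D i).eval (t : ℂ)) =
        β0 * (A.eval (t : ℂ) / B.eval (t : ℂ)) - A.eval ((t : ℂ) + 1) / B.eval ((t : ℂ) + 1)) → c = 0)
    (hM : ∀ (e e' : μ →₀ ℕ) (A B : ℂ[X]), A ≠ 0 → B ≠ 0 →
      pr b e * (A.comp (X + 1) * B) = pr b e' * (A * B.comp (X + 1)) → e = e')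
    (P : MvPolynomial (Option (κ ⊕ μ)) ℂ)
    (hP : ∀ᶠ t : ℝ in atTop, MvPolynomial.eval (fun o : Option (κ ⊕ μ) => o.elim (t : ℂ) fun z => Sum.elim u v z t) P = 0) :
    P = 0 := by
  classical
  refine poly_of_algInd (Sum.elim u v) ?_ P hP
  have h0 : (fun z => ((Sum.elim u v z : ℝ → ℂ) : GC)) =
      Sum.elim (fun i => ((u i : ℝ → ℂ) : GC)) (fun j => ((v j : ℝ → ℂ) : GC)) := by
    funext z
    rcases z with i | j <;> rfl
  rw [h0]
  have hcc : ∀ c : ℂ, algebraMap KC GC (algebraMap ℂ[X] KC (C c)) = (((fun _ : ℝ => c) : ℝ → ℂ) : GC) := by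
    intro c
    have : algebraMap KC GC (algebraMap ℂ[X] KC (C c)) = phi (C c) := iota_poly _
    rw [this]
    show (((fun t : ℝ => (C c).eval (t : ℂ)) : ℝ → ℂ) : GC) = _
    congr 1
    funext t
    simp
  refine mixInd sig Sh Sh_iota _ (fun i => algebraMap ℂ[X] KC (C (β i)))
    (fun i => algebraMap ℂ[X] KC (N i) / algebraMap ℂ[X] KC (D i)) ?_ ?_ _ (fun j => algebraMap ℂ[X] KC (b j)) ?_ ?_ ?_ ?_ ?_
  · intro i
    exact alg_ne (C_ne_zero.2 (hβ i))
  · intro i
    have h1 : algebraMap KC GC (algebraMap ℂ[X] KC (N i) / algebraMap ℂ[X] KC (D i)) =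
      (((fun t : ℝ => (N i).eval (t : ℂ) / (D i).eval (t : ℂ)) : ℝ → ℂ) : GC) := iota_div _ _ (hD i)
    rw [h1, hcc, Sh_coe, ← Germ.coe_mul, ← Germ.coe_add]
    exact Germ.coe_eq.2 (hu i)
  · intro j
    exact alg_ne (hb j)
  · intro j
    have h1 : algebraMap KC GC (algebraMap ℂ[X] KC (b j)) = (((fun t : ℝ => (b j).eval (t : ℂ)) : ℝ → ℂ) : GC) :=
      iota_poly _
    rw [h1, Sh_coe, ← Germ.coe_mul]
    exact Germ.coe_eq.2 (hv j)
  · intro j
    refine IsUnit.of_mul_eq_one (((fun t : ℝ => (v j t)⁻¹) : ℝ → ℂ) : GC) ?_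
    rw [← Germ.coe_mul, ← Germ.coe_one]
    refine Germ.coe_eq.2 ?_
    filter_upwards [hv0 j] with t ht
    simp [ht]
  · intro i0 c g hc0 hc hg
    have hcr : ∀ i, ∃ r : ℂ, c i = algebraMap ℂ[X] KC (C r) ∧ (β i ≠ β i0 → r = 0) := by
      intro i
      by_cases hci : c i = 0
      · exact ⟨0, by rw [hci]; simp, fun _ => rfl⟩
      have h1 : sig (c i) = algebraMap ℂ[X] KC (C (β i0 / β i)) * c i := by
        have h2 := hc i
        have h3 : algebraMap ℂ[X] KC (C (β i)) * (algebraMap ℂ[X] KC (C (β i0 / β i)) * c i) =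
            algebraMap ℂ[X] KC (C (β i0)) * c i := by
          rw [← mul_assoc, ← map_mul, ← C_mul, mul_div_cancel₀ _ (hβ i)]
        exact mul_left_cancel₀ (alg_ne (C_ne_zero.2 (hβ i))) (h2.trans h3.symm)
      obtain ⟨h2, r, hr⟩ := sig_semi hci h1
      refine ⟨r, hr, fun hne => ?_⟩
      exact absurd ((div_eq_one_iff_eq (hβ i)).1 h2).symm hne
    choose r hr hr0 using hcr
    obtain ⟨A, B, hB, rfl⟩ := IsFractionRing.div_surjective (A := ℂ[X]) g
    have hB0 : B ≠ 0 := nonZeroDivisors.ne_zero hB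
    have h1 := congrArg (algebraMap KC GC) hg
    rw [map_sub, map_mul, ← Sh_iota, map_sum, hcc] at h1
    have h2 : (algebraMap KC GC (algebraMap ℂ[X] KC A / algebraMap ℂ[X] KC B)) =
      (((fun t : ℝ => A.eval (t : ℂ) / B.eval (t : ℂ)) : ℝ → ℂ) : GC) := iota_div A B hB0
    have h3 : ∀ i, algebraMap KC GC (algebraMap ℂ[X] KC (N i) / algebraMap ℂ[X] KC (D i) * sig (c i)) =
        (((fun t : ℝ => r i * ((N i).eval (t : ℂ) / (D i).eval (t : ℂ))) : ℝ → ℂ) : GC) := by
      intro i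
      have h4 : algebraMap KC GC (algebraMap ℂ[X] KC (N i) / algebraMap ℂ[X] KC (D i)) =
        (((fun t : ℝ => (N i).eval (t : ℂ) / (D i).eval (t : ℂ)) : ℝ → ℂ) : GC) := iota_div _ _ (hD i)
      have h5 : sig (c i) = algebraMap ℂ[X] KC (C (r i)) := by
        rw [hr i, sig_poly]
        simp
      rw [map_mul, h4, h5, hcc, mul_comm, ← Germ.coe_mul]
      rfl
    rw [h2, Sh_coe] at h1
    simp only [h3] at h1
    have h6 : ∑ i, (((fun t : ℝ => r i * ((N i).eval (t : ℂ) / (D i).eval (t : ℂ))) : ℝ → ℂ) : GC) =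
        (((fun t : ℝ => ∑ i, r i * ((N i).eval (t : ℂ) / (D i).eval (t : ℂ))) : ℝ → ℂ) : GC) := by
      have : ∀ s : Finset κ, ∑ i ∈ s, (((fun t : ℝ => r i * ((N i).eval (t : ℂ) / (D i).eval (t : ℂ))) : ℝ → ℂ) : GC) =
        (((fun t : ℝ => ∑ i ∈ s, r i * ((N i).eval (t : ℂ) / (D i).eval (t : ℂ))) : ℝ → ℂ) : GC) := by
        intro s
        induction s using Finset.induction_on with
        | empty => simp; rfl
        | insert j s hj ih =>
          rw [Finset.sum_insert hj, ih, ← Germ.coe_add]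
          congr 1
          funext t
          rw [Finset.sum_insert hj]
          rfl
      exact this _
    rw [h6, ← Germ.coe_mul, ← Germ.coe_sub] at h1
    have h7 := hA (β i0) r A B hB0 (fun i hi => hr0 i hi) (by
      filter_upwards [Germ.coe_eq.1 h1] with t ht
      simp only [Pi.sub_apply, Pi.mul_apply] at ht
      rw [ht]
      push_cast
      rfl)
    apply hc0
    rw [hr i0, h7]
    simp
  · intro e e' c hc hcc'
    obtain ⟨A, B, hB, rfl⟩ := IsFractionRing.div_surjective (A := ℂ[X]) c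
    have hB0 : B ≠ 0 := nonZeroDivisors.ne_zero hB
    have hA0 : A ≠ 0 := by
      rintro rfl
      apply hc
      simp
    have hsh : ∀ {R : ℂ[X]}, R ≠ 0 → R.comp (X + 1) ≠ 0 := fun {R} hR h =>
      hR (shift_inj (by show R.comp (X + 1) = _; rw [h, map_zero]))
    rw [pr_poly, pr_poly, map_div₀, sig_poly, sig_poly, ← mul_div_assoc, ← mul_div_assoc,
      div_eq_div_iff (alg_ne (hsh hB0)) (alg_ne hB0), ← map_mul, ← map_mul, ← map_mul, ← map_mul] at hcc'
    have h1 := alg_inj hcc'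
    refine hM e e' A B hA0 hB0 ?_
    linear_combination h1

end Pool.Agent.Q23.DM
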