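import Pool.Agent.Q23.DM.CB

/-!
# Partial fractions and products which are not differences or quotients of shifts of a rational function
-/

set_option autoImplicit false

open Filter Topology Polynomial Set

namespace Pool.Agent.Q23.DM

/-- rational functions, arbitrary values at finitely many points -/
def IsRat (F : ℂ → ℂ) : Prop := ∃ N D : ℂ[X], D ≠ 0 ∧ ∀ t, D.eval t ≠ 0 → F t * D.eval t = N.eval t

theorem IsRat.add {F G : ℂ → ℂ} (hF : IsRat F) (hG : IsRat G) : IsRat (fun t => F t + G t) := by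
  obtain ⟨N, D, hD, h⟩ := hF
  obtain ⟨N', D', hD', h'⟩ := hG
  refine ⟨N * D' + N' * D, D * D', mul_ne_zero hD hD', fun t ht => ?_⟩
  rw [eval_mul] at ht
  have h1 := h t (left_ne_zero_of_mul ht)
  have h2 := h' t (right_ne_zero_of_mul ht)
  rw [eval_mul, eval_add, eval_mul, eval_mul, ← h1, ← h2]
  ring

theorem IsRat.const_mul {F : ℂ → ℂ} (c : ℂ) (hF : IsRat F) : IsRat (fun t => c * F t) := by
  obtain ⟨N, D, hD, h⟩ := hF
  refine ⟨C c * N, D, hD, fun t ht => ?_⟩
  rw [eval_mul, eval_C, ← h t ht]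
  ring

theorem IsRat.sub {F G : ℂ → ℂ} (hF : IsRat F) (hG : IsRat G) : IsRat (fun t => F t - G t) := by
  have := hF.add (hG.const_mul (-1))
  convert this using 2
  ring

theorem IsRat.zero : IsRat (fun _ => 0) := ⟨0, 1, one_ne_zero, fun t _ => by simp⟩

theorem IsRat.sum {ι : Type} (S : Finset ι) (F : ι → ℂ → ℂ) (h : ∀ i ∈ S, IsRat (F i)) :
    IsRat (fun t => ∑ i ∈ S, F i t) := by
  classical
  induction S using Finset.induction_on with
  | empty => simpa using IsRat.zero
  | insert a S ha ih =>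
    have h1 := (h a (Finset.mem_insert_self _ _)).add (ih fun i hi => h i (Finset.mem_insert_of_mem hi))
    convert h1 using 2
    rw [Finset.sum_insert ha]

theorem IsRat.div (A B : ℂ[X]) (hB : B ≠ 0) : IsRat (fun t => A.eval t / B.eval t) :=
  ⟨A, B, hB, fun t ht => by field_simp⟩

theorem shift_ne {B : ℂ[X]} (hB : B ≠ 0) : B.comp (X + 1) ≠ 0 := by
  intro h
  apply hB
  have h2 : (B.comp (X + 1)).comp (X - 1) = B := by
    rw [comp_assoc]
    simp
  rw [h, zero_comp] at h2
  exact h2.symm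

theorem IsRat.div_shift (A B : ℂ[X]) (hB : B ≠ 0) : IsRat (fun t => A.eval (t + 1) / B.eval (t + 1)) := by
  have := IsRat.div (A.comp (X + 1)) (B.comp (X + 1)) (shift_ne hB)
  simpa using this

theorem IsRat.pow (c x : ℂ) (k : ℕ) : IsRat (fun t => c / (t + x) ^ k) := by
  have h1 : ((X + C x : ℂ[X]) ^ k) ≠ 0 := pow_ne_zero _ (X_add_C_ne_zero x)
  have := IsRat.div (C c) _ h1
  simpa using this

/-- a rational function vanishing near real infinity vanishes outside a finite set -/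
theorem IsRat.zero_of {F : ℂ → ℂ} (hF : IsRat F) (h : ∀ᶠ t : ℝ in atTop, F t = 0) :
    ∃ S : Finset ℂ, ∀ t, t ∉ S → F t = 0 := by
  obtain ⟨N, D, hD, hND⟩ := hF
  have hN : N = 0 := by
    by_contra hN
    obtain ⟨t, h1, h2, h3⟩ := (h.and ((poly_ne hN).and (poly_ne hD))).exists
    have := hND t h3
    rw [h1, zero_mul] at this
    exact h2 this.symm
  refine ⟨D.roots.toFinset, fun t ht => ?_⟩
  have h1 : D.eval t ≠ 0 := fun h0 => ht (by
    rw [Multiset.mem_toFinset, mem_roots hD]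
    exact h0)
  have h2 := hND t h1
  rw [hN, eval_zero] at h2
  exact (mul_eq_zero.1 h2).resolve_right h1

/-- boundedness near a point -/
def Bd (g : ℂ → ℂ) (p : ℂ) : Prop := ∃ C : ℝ, ∀ᶠ t in 𝓝[≠] p, ‖g t‖ ≤ C

theorem Bd.add {f g : ℂ → ℂ} {p : ℂ} (hf : Bd f p) (hg : Bd g p) : Bd (fun t => f t + g t) p := by
  obtain ⟨C, hC⟩ := hf
  obtain ⟨C', hC'⟩ := hg
  exact ⟨C + C', by filter_upwards [hC, hC'] with t h1 h2 using (norm_add_le _ _).trans (add_le_add h1 h2)⟩

theorem Bd.cmul {f : ℂ → ℂ} {p : ℂ} (c : ℂ) (hf : Bd f p) : Bd (fun t => c * f t) p := by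
  obtain ⟨C, hC⟩ := hf
  exact ⟨‖c‖ * C, by
    filter_upwards [hC] with t h1
    rw [norm_mul]
    exact mul_le_mul_of_nonneg_left h1 (norm_nonneg _)⟩

theorem Bd.congr {f g : ℂ → ℂ} {p : ℂ} (hf : Bd f p) (h : ∀ᶠ t in 𝓝[≠] p, f t = g t) : Bd g p := by
  obtain ⟨C, hC⟩ := hf
  exact ⟨C, by filter_upwards [hC, h] with t h1 h2 using by rwa [← h2]⟩

theorem Bd.of_cont {f : ℂ → ℂ} {p : ℂ} (hf : ContinuousAt f p) : Bd f p := by
  have h1 : ∀ᶠ t in 𝓝 p, ‖f t‖ < ‖f p‖ + 1 := hf.norm.eventually (gt_mem_nhds (by simp))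
  exact ⟨‖f p‖ + 1, (h1.filter_mono nhdsWithin_le_nhds).mono fun t h => h.le⟩

theorem Bd.sum {ι : Type} {p : ℂ} (S : Finset ι) (F : ι → ℂ → ℂ) (h : ∀ i ∈ S, Bd (F i) p) :
    Bd (fun t => ∑ i ∈ S, F i t) p := by
  classical
  induction S using Finset.induction_on with
  | empty => exact ⟨0, by simp⟩
  | insert a S ha ih =>
    have h1 := (h a (Finset.mem_insert_self _ _)).add (ih fun i hi => h i (Finset.mem_insert_of_mem hi))
    convert h1 using 2
    rw [Finset.sum_insert ha]

theorem Bd.shift {g : ℂ → ℂ} {p : ℂ} : Bd (fun t => g (t + 1)) p ↔ Bd g (p + 1) := by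
  constructor
  · rintro ⟨C, hC⟩
    refine ⟨C, ?_⟩
    rw [eventually_nhdsWithin_iff, Metric.eventually_nhds_iff] at hC ⊢
    obtain ⟨ε, hε, h⟩ := hC
    refine ⟨ε, hε, fun y hy hne => ?_⟩
    have h1 := h (y := y - 1) (by
      rw [dist_eq_norm] at hy ⊢
      rwa [show y - 1 - p = y - (p + 1) by ring]) (by
      intro h0
      apply hne
      rw [Set.mem_singleton_iff] at h0 ⊢
      linear_combination h0)
    simpa using h1
  · rintro ⟨C, hC⟩
    refine ⟨C, ?_⟩
    rw [eventually_nhdsWithin_iff, Metric.eventually_nhds_iff] at hC ⊢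
    obtain ⟨ε, hε, h⟩ := hC
    refine ⟨ε, hε, fun y hy hne => ?_⟩
    refine h (y := y + 1) (by
      rw [dist_eq_norm] at hy ⊢
      rwa [show y + 1 - (p + 1) = y - p by ring]) (by
      intro h0
      apply hne
      rw [Set.mem_singleton_iff] at h0 ⊢
      linear_combination h0)

/-- polynomials in `1 / (t - p)` without constant term are unbounded near `p` -/
theorem unbd (p : ℂ) (s : ℕ) (c : Fin s → ℂ) (hc : c ≠ 0) : ¬ Bd (fun t => ∑ k : Fin s, c k / (t - p) ^ ((k : ℕ) + 1)) p := by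
  rintro ⟨C, hC⟩
  obtain ⟨k1, hk1⟩ : ∃ k, c k ≠ 0 := by
    by_contra hcon
    push Not at hcon
    exact hc (funext hcon)
  obtain ⟨k0, hk0, hmax⟩ := (Finset.univ.filter fun k => c k ≠ 0).exists_max_image id ⟨k1, by simp [hk1]⟩
  rw [Finset.mem_filter] at hk0
  have h1 : Tendsto (fun t => (∑ k : Fin s, c k / (t - p) ^ ((k : ℕ) + 1)) * (t - p) ^ ((k0 : ℕ) + 1)) (𝓝[≠] p)
      (𝓝 (c k0)) := by
    have h2 : ∀ k ∈ Finset.univ.erase k0, Tendsto (fun t => c k / (t - p) ^ ((k : ℕ) + 1) * (t - p) ^ ((k0 : ℕ) + 1))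
        (𝓝[≠] p) (𝓝 0) := by
      intro k hk
      rcases eq_or_ne (c k) 0 with h0 | h0
      · simp [h0]
      have hle := hmax k (by simp [h0])
      have hlt : k < k0 := lt_of_le_of_ne hle (Finset.ne_of_mem_erase hk)
      have hlt' : (k : ℕ) < k0 := hlt
      have h3 : Tendsto (fun t : ℂ => c k * (t - p) ^ ((k0 : ℕ) - k)) (𝓝 p) (𝓝 (c k * (p - p) ^ ((k0 : ℕ) - k))) :=
        (continuous_const.mul ((continuous_id.sub continuous_const).pow _)).tendsto p
      rw [sub_self, zero_pow (by omega), mul_zero] at h3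
      refine (h3.mono_left nhdsWithin_le_nhds).congr' ?_
      filter_upwards [self_mem_nhdsWithin] with t ht
      have ht' : t - p ≠ 0 := sub_ne_zero.2 ht
      have h4 : (t - p) ^ ((k0 : ℕ) + 1) = (t - p) ^ ((k0 : ℕ) - k) * (t - p) ^ ((k : ℕ) + 1) := by
        rw [← pow_add]
        congr 1
        omega
      rw [h4, div_mul_eq_mul_div, mul_comm ((t - p) ^ ((k0 : ℕ) - k)), ← mul_assoc, mul_div_right_comm,
        mul_div_assoc, div_self (pow_ne_zero _ ht'), mul_one]
    have hsum := tendsto_finsetSum _ h2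
    rw [Finset.sum_const_zero] at hsum
    have h5 := hsum.const_add (c k0)
    rw [add_zero] at h5
    refine h5.congr' ?_
    filter_upwards [self_mem_nhdsWithin] with t ht
    have ht' : t - p ≠ 0 := sub_ne_zero.2 ht
    rw [Finset.sum_mul, ← Finset.add_sum_erase _ _ (Finset.mem_univ k0)]
    congr 1
    field_simp
  have h6 : Tendsto (fun t => (∑ k : Fin s, c k / (t - p) ^ ((k : ℕ) + 1)) * (t - p) ^ ((k0 : ℕ) + 1)) (𝓝[≠] p)
      (𝓝 0) := by
    have h3 : Tendsto (fun t : ℂ => C * ‖(t - p) ^ ((k0 : ℕ) + 1)‖) (𝓝 p) (𝓝 (C * ‖(p - p) ^ ((k0 : ℕ) + 1)‖)) :=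
      (continuous_const.mul ((continuous_id.sub continuous_const).pow _).norm).tendsto p
    rw [sub_self, zero_pow (by omega), norm_zero, mul_zero] at h3
    refine squeeze_zero_norm' ?_ (h3.mono_left nhdsWithin_le_nhds)
    filter_upwards [hC] with t ht
    rw [norm_mul]
    exact mul_le_mul_of_nonneg_right ht (norm_nonneg _)
  exact hk0.2 (tendsto_nhds_unique h1 h6)

theorem not_bd_finite (A B : ℂ[X]) (hB : B ≠ 0) {p : ℂ} (h : ¬ Bd (fun t => A.eval t / B.eval t) p) :
    p ∈ B.roots.toFinset := by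
  by_contra hp
  apply h
  have h1 : B.eval p ≠ 0 := fun h0 => hp (by
    rw [Multiset.mem_toFinset, mem_roots hB]
    exact h0)
  exact Bd.of_cont (A.continuous.continuousAt.div B.continuous.continuousAt h1)

theorem fracC_ind (r s : ℕ) (x : Fin r → ℂ) (hx : ∀ i j (n : ℤ), x i = x j + n → i = j) (c : Fin r × Fin s → ℂ)
    (β : ℂ) (hβ : β ≠ 0) (A B : ℂ[X]) (hB : B ≠ 0)
    (h : ∀ᶠ t : ℝ in atTop, ∑ p, c p / ((t : ℂ) + x p.1) ^ ((p.2 : ℕ) + 1) =
      β * (A.eval (t : ℂ) / B.eval (t : ℂ)) - A.eval ((t : ℂ) + 1) / B.eval ((t : ℂ) + 1)) : c = 0 := by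
  classical
  set g : ℂ → ℂ := fun t => A.eval t / B.eval t with hg
  by_contra hc
  obtain ⟨⟨i0, k0⟩, hi0⟩ : ∃ p, c p ≠ 0 := by
    by_contra hcon
    push Not at hcon
    exact hc (funext hcon)
  -- the identity outside a finite set
  have hR : IsRat (fun t => (∑ p, c p / (t + x p.1) ^ ((p.2 : ℕ) + 1)) -
      (β * (A.eval t / B.eval t) - A.eval (t + 1) / B.eval (t + 1))) :=
    (IsRat.sum _ _ fun p _ => IsRat.pow _ _ _).sub (((IsRat.div A B hB).const_mul β).sub (IsRat.div_shift A B hB))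
  obtain ⟨S, hS⟩ := hR.zero_of (by filter_upwards [h] with t ht using sub_eq_zero.2 ht)
  have hid : ∀ p : ℂ, ∀ᶠ t in 𝓝[≠] p, ∑ p, c p / (t + x p.1) ^ ((p.2 : ℕ) + 1) = β * g t - g (t + 1) := by
    intro p
    have h1 : ∀ᶠ t in 𝓝[≠] p, t ∉ S := by
      have h2 : ∀ᶠ t in 𝓝[≠] p, t ∉ ((S.erase p : Finset ℂ) : Set ℂ) := by
        refine nhdsWithin_le_nhds ?_
        exact (S.erase p).finite_toSet.isClosed.isOpen_compl.mem_nhds (by simp)
      filter_upwards [h2, self_mem_nhdsWithin] with t ht1 ht2 ht3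
      exact ht1 (Finset.mem_coe.2 (Finset.mem_erase.2 ⟨ht2, ht3⟩))
    filter_upwards [h1] with t ht
    exact sub_eq_zero.1 (hS t ht)
  -- away from `-x_i` the sum is bounded
  have hbd : ∀ p : ℂ, (∀ i, p ≠ -x i) → Bd (fun t => ∑ p, c p / (t + x p.1) ^ ((p.2 : ℕ) + 1)) p := by
    intro p hp
    refine Bd.sum _ _ fun z _ => Bd.of_cont ?_
    refine ContinuousAt.div continuousAt_const (by fun_prop) ?_
    refine pow_ne_zero _ ?_
    intro h0
    exact hp z.1 (by linear_combination h0)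
  have hstep : ∀ p : ℂ, (∀ i, p ≠ -x i) → (Bd g p ↔ Bd g (p + 1)) := by
    intro p hp
    have h1 := hbd p hp
    have h2 := hid p
    constructor
    · intro h3
      rw [← Bd.shift]
      refine ((h1.cmul (-1)).add (h3.cmul β)).congr ?_
      filter_upwards [h2] with t ht
      rw [ht]
      ring
    · intro h3
      rw [← Bd.shift] at h3
      refine ((h3.add h1).cmul β⁻¹).congr ?_
      filter_upwards [h2] with t ht
      rw [ht]
      field_simp
      ring
  set p0 := -x i0 with hp0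
  obtain ⟨M, hM⟩ := ((B.roots.toFinset.image Complex.re).finite_toSet).bddAbove
  obtain ⟨M', hM'⟩ := ((B.roots.toFinset.image Complex.re).finite_toSet).bddBelow
  have hnb : ∀ q : ℂ, ¬ Bd g q → M' ≤ q.re ∧ q.re ≤ M := by
    intro q hq
    have h1 := not_bd_finite A B hB hq
    have h2 : q.re ∈ ((B.roots.toFinset.image Complex.re : Finset ℝ) : Set ℝ) :=
      Finset.mem_coe.2 (Finset.mem_image.2 ⟨q, h1, rfl⟩)
    exact ⟨hM' h2, hM h2⟩
  -- to the right
  have hright : Bd g (p0 + 1) := by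
    obtain ⟨N, hN⟩ := exists_nat_gt (M - p0.re)
    have hbig : Bd g (p0 + 1 + N) := by
      by_contra hcon
      have := (hnb _ hcon).2
      simp at this
      linarith
    have : ∀ n : ℕ, Bd g (p0 + 1 + n) → Bd g (p0 + 1) := by
      intro n
      induction n with
      | zero => intro h; simpa using h
      | succ n ih =>
        intro h
        apply ih
        rw [hstep]
        · push_cast at h
          rwa [show p0 + 1 + n + 1 = p0 + 1 + (n + 1) by ring]
        · intro i hi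
          have h2 : i0 = i := hx i0 i ((n : ℤ) + 1) (by push_cast; linear_combination -hi)
          rw [← h2] at hi
          have h3 := congrArg Complex.re hi
          simp [hp0] at h3
          have : (0 : ℝ) ≤ n := Nat.cast_nonneg n
          linarith
    exact this N hbig
  -- to the left
  have hleft : Bd g p0 := by
    obtain ⟨N, hN⟩ := exists_nat_gt (p0.re - M')
    have hbig : Bd g (p0 - N) := by
      by_contra hcon
      have := (hnb _ hcon).1
      simp at this
      linarith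
    have : ∀ n : ℕ, Bd g (p0 - n) → Bd g p0 := by
      intro n
      induction n with
      | zero => intro h; simpa using h
      | succ n ih =>
        intro h
        apply ih
        rw [hstep] at h
        · push_cast at h
          rwa [show p0 - (n + 1) + 1 = p0 - n by ring] at h
        · intro i hi
          have h2 : i0 = i := hx i0 i (-((n : ℤ) + 1)) (by push_cast at hi ⊢; linear_combination -hi)
          rw [← h2] at hi
          have h3 := congrArg Complex.re hi
          simp [hp0] at h3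
          have : (0 : ℝ) ≤ n := Nat.cast_nonneg n
          linarith
    exact this N hbig
  -- contradiction
  have h1 : Bd (fun t => ∑ p, c p / (t + x p.1) ^ ((p.2 : ℕ) + 1)) p0 := by
    refine (((Bd.shift.2 hright).cmul (-1)).add (hleft.cmul β)).congr ?_
    filter_upwards [hid p0] with t ht
    rw [ht]
    ring
  refine unbd p0 s (fun k => c (i0, k)) (fun h0 => hi0 (congrFun h0 k0)) ?_
  have h2 : Bd (fun t => ∑ i ∈ Finset.univ.erase i0, ∑ k : Fin s, c (i, k) / (t + x i) ^ ((k : ℕ) + 1)) p0 := by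
    refine Bd.sum _ _ fun i hi => Bd.sum _ _ fun k _ => Bd.of_cont ?_
    refine ContinuousAt.div continuousAt_const (by fun_prop) ?_
    refine pow_ne_zero _ ?_
    intro h0
    have : i0 = i := hx i0 i 0 (by push_cast; linear_combination -h0)
    exact (Finset.ne_of_mem_erase hi) this.symm
  refine (h1.add (h2.cmul (-1))).congr (Eventually.of_forall fun t => ?_)
  rw [Fintype.sum_prod_type, ← Finset.add_sum_erase _ _ (Finset.mem_univ i0)]
  simp only [hp0, sub_neg_eq_add]
  ring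

/-- number of roots in the class of `-y` modulo `ℤ` -/
noncomputable def nr (y : ℂ) (P : ℂ[X]) : ℕ := by
  classical exact (P.roots.countP fun r => ∃ n : ℤ, r + y = n)

theorem nr_mul (y : ℂ) {P Q : ℂ[X]} (hP : P ≠ 0) (hQ : Q ≠ 0) : nr y (P * Q) = nr y P + nr y Q := by
  classical
  unfold nr
  rw [roots_mul (mul_ne_zero hP hQ), Multiset.countP_add]

theorem nr_shift (y : ℂ) (P : ℂ[X]) : nr y (P.comp (X + 1)) = nr y P := by
  classical
  unfold nr
  have h1 := map_roots_comp_C_mul_X_add_C P 1 1 isUnit_one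
  simp only [map_one, one_mul] at h1
  rw [← h1, Multiset.countP_map, Multiset.countP_eq_card_filter]
  congr 1
  refine Multiset.filter_congr fun r _ => ?_
  constructor
  · rintro ⟨n, hn⟩
    exact ⟨n + 1, by push_cast; linear_combination hn⟩
  · rintro ⟨n, hn⟩
    exact ⟨n - 1, by push_cast; linear_combination hn⟩

theorem nr_C (y c : ℂ) : nr y (C c) = 0 := by
  classical
  unfold nr
  rw [roots_C]
  simp

open Classical in
theorem nr_X (y z : ℂ) : nr y (X + C z) = if (∃ n : ℤ, y = z + n) then 1 else 0 := by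
  classical
  unfold nr
  rw [roots_X_add_C, Multiset.countP_eq_card_filter]
  by_cases h : ∃ n : ℤ, y = z + n
  · rw [if_pos h]
    obtain ⟨n, hn⟩ := h
    rw [Multiset.filter_eq_self.2 (by
      intro r hr
      rw [Multiset.mem_singleton] at hr
      exact ⟨n, by rw [hr, hn]; ring⟩)]
    simp
  · rw [if_neg h, Multiset.filter_eq_nil.2]
    · simp
    · intro r hr
      rw [Multiset.mem_singleton] at hr
      rintro ⟨n, hn⟩
      exact h ⟨n, by rw [hr] at hn; linear_combination hn⟩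

theorem nr_pow (y : ℂ) {P : ℂ[X]} (hP : P ≠ 0) (n : ℕ) : nr y (P ^ n) = n * nr y P := by
  induction n with
  | zero =>
    rw [pow_zero, zero_mul]
    have := nr_C y 1
    rwa [map_one] at this
  | succ n ih =>
    rw [pow_succ, nr_mul y (pow_ne_zero _ hP) hP, ih]
    ring

theorem nr_prod {ι : Type} (y : ℂ) (S : Finset ι) (P : ι → ℂ[X]) (hP : ∀ i, P i ≠ 0) :
    nr y (∏ i ∈ S, P i) = ∑ i ∈ S, nr y (P i) := by
  classical
  induction S using Finset.induction_on with
  | empty =>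
    rw [Finset.prod_empty, Finset.sum_empty]
    have := nr_C y 1
    rwa [map_one] at this
  | insert a S ha ih =>
    rw [Finset.prod_insert ha, Finset.sum_insert ha, nr_mul y (hP a) (Finset.prod_ne_zero_iff.2 fun i _ => hP i), ih]

/-- the multipliers `t + y_j` and the constants `λ_l` -/
noncomputable def bb {r m : ℕ} (y : Fin r → ℂ) (lam : Fin m → ℂ) : Fin r ⊕ Fin m → ℂ[X] :=
  Sum.elim (fun j => X + C (y j)) (fun l => C (lam l))

theorem bb_ne {r m : ℕ} (y : Fin r → ℂ) (lam : Fin m → ℂ) (hl : ∀ l, lam l ≠ 0) (j : Fin r ⊕ Fin m) : bb y lam j ≠ 0 := by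
  rcases j with j | l
  · exact X_add_C_ne_zero _
  · exact C_ne_zero.2 (hl l)

theorem bb_ind {r m : ℕ} (y : Fin r → ℂ) (hy : ∀ i j (n : ℤ), y i = y j + n → i = j) (lam : Fin m → ℂ)
    (hl : ∀ l, lam l ≠ 0) (hl' : ∀ e e' : Fin m → ℕ, ∏ l, lam l ^ e l = ∏ l, lam l ^ e' l → e = e')
    (e e' : (Fin r ⊕ Fin m) →₀ ℕ) (A B : ℂ[X]) (hA : A ≠ 0) (hB : B ≠ 0)
    (h : pr (bb y lam) e * (A.comp (X + 1) * B) = pr (bb y lam) e' * (A * B.comp (X + 1))) : e = e' := by
  classical
  have hpr : ∀ e : (Fin r ⊕ Fin m) →₀ ℕ, pr (bb y lam) e = ∏ j, bb y lam j ^ e j := by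
    intro e
    unfold pr
    rw [Finsupp.prod_fintype _ _ (fun _ => pow_zero _)]
  have hne : ∀ e : (Fin r ⊕ Fin m) →₀ ℕ, pr (bb y lam) e ≠ 0 := by
    intro e
    rw [hpr]
    exact Finset.prod_ne_zero_iff.2 fun j _ => pow_ne_zero _ (bb_ne y lam hl j)
  have hnr : ∀ (j : Fin r) (e : (Fin r ⊕ Fin m) →₀ ℕ), nr (y j) (pr (bb y lam) e) = e (Sum.inl j) := by
    intro j e
    rw [hpr, nr_prod _ _ _ fun i => pow_ne_zero _ (bb_ne y lam hl i)]
    simp only [nr_pow _ (bb_ne y lam hl _)]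
    rw [Fintype.sum_sum_type]
    have h1 : ∀ l : Fin m, nr (y j) (bb y lam (Sum.inr l)) = 0 := fun l => nr_C _ _
    have h2 : ∀ i : Fin r, nr (y j) (bb y lam (Sum.inl i)) = if i = j then 1 else 0 := by
      intro i
      show nr (y j) (X + C (y i)) = _
      rw [nr_X]
      by_cases hij : i = j
      · rw [if_pos hij, if_pos ⟨0, by rw [hij]; simp⟩]
      · rw [if_neg hij, if_neg]
        rintro ⟨n, hn⟩
        exact hij (hy j i n hn).symm
    simp only [h1, h2, mul_zero, Finset.sum_const_zero, add_zero, mul_ite, mul_one]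
    rw [Finset.sum_ite_eq' Finset.univ j]
    simp
  have h1 : ∀ j, e (Sum.inl j) = e' (Sum.inl j) := by
    intro j
    have h2 := congrArg (nr (y j)) h
    rw [nr_mul _ (hne e) (mul_ne_zero (shift_ne hA) hB), nr_mul _ (hne e') (mul_ne_zero hA (shift_ne hB)),
      nr_mul _ (shift_ne hA) hB, nr_mul _ hA (shift_ne hB), nr_shift, nr_shift, hnr, hnr] at h2
    omega
  have hdeg : ∀ R : ℂ[X], (R.comp (X + 1)).leadingCoeff = R.leadingCoeff := by
    intro R
    have : (X + 1 : ℂ[X]).natDegree = 1 := natDegree_X_add_C 1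
    rw [leadingCoeff_comp (by rw [this]; exact one_ne_zero)]
    have h2 : (X + 1 : ℂ[X]).leadingCoeff = 1 := leadingCoeff_X_add_C 1
    rw [h2, one_pow, mul_one]
  have hlc : ∀ e : (Fin r ⊕ Fin m) →₀ ℕ, (pr (bb y lam) e).leadingCoeff = ∏ l, lam l ^ e (Sum.inr l) := by
    intro e
    rw [hpr, leadingCoeff_prod, Fintype.prod_sum_type]
    simp [bb, leadingCoeff_pow]
  have h2 := congrArg leadingCoeff h
  rw [leadingCoeff_mul, leadingCoeff_mul, leadingCoeff_mul, leadingCoeff_mul, hdeg, hdeg, hlc, hlc] at h2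
  have h3 : (∏ l, lam l ^ e (Sum.inr l)) = ∏ l, lam l ^ e' (Sum.inr l) :=
    mul_right_cancel₀ (mul_ne_zero (leadingCoeff_ne_zero.2 hA) (leadingCoeff_ne_zero.2 hB)) h2
  have h4 := hl' (fun l => e (Sum.inr l)) (fun l => e' (Sum.inr l)) h3
  ext j
  rcases j with j | l
  · exact h1 j
  · exact congrFun h4 l

end Pool.Agent.Q23.DM
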