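import Pool.Agent.Q23.DM.FracC
import Pool.Agent.Q23.AQ.Str
import Pool.Agent.Q23.AQ.Hz

/-!
# The functions `Γ`, `ψ`, `ζ(k, z)`, `Φ(w, k, z)` and exponentials
-/

set_option autoImplicit false

open Filter Topology Polynomial Set

namespace Pool.Agent.Q23.DM

/-- `∑ w^n / (n + z)^k`, and `-ψ` for `w = k = 1` -/
noncomputable def Lam (w : ℂ) (k : ℕ) (z : ℂ) : ℂ :=
  if w = 1 ∧ k = 1 then -Complex.digamma z else ∑' n : ℕ, w ^ n / ((n : ℂ) + z) ^ k

/-- the admissible pairs -/
def Ok (w : ℂ) (k : ℕ) : Prop := w ≠ 0 ∧ (‖w‖ < 1 ∨ (w = 1 ∧ k = 1) ∨ (‖w‖ ≤ 1 ∧ 2 ≤ k))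

theorem lam_summable {w : ℂ} {k : ℕ} (h : Ok w k) (h' : ¬ (w = 1 ∧ k = 1)) {δ : ℝ} (hδ : 0 < δ) :
    Summable (fun n : ℕ => ‖w‖ ^ n / ((n : ℝ) + δ) ^ k) := by
  obtain ⟨hw, h1 | h1 | ⟨h1, h2⟩⟩ := h
  · refine Summable.of_nonneg_of_le (fun n => by positivity) (fun n => ?_)
      ((summable_geometric_of_lt_one (norm_nonneg w) h1).mul_right (1 / δ ^ k))
    rw [div_eq_mul_one_div]
    refine mul_le_mul_of_nonneg_left ?_ (by positivity)
    refine one_div_le_one_div_of_le (by positivity) (pow_le_pow_left₀ hδ.le ?_ _)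
    have : (0 : ℝ) ≤ n := Nat.cast_nonneg n
    linarith
  · exact absurd h1 h'
  · refine Summable.of_nonneg_of_le (fun n => by positivity) (fun n => ?_) (Q23.Hz.hz_summable h2 hδ)
    refine div_le_div_of_nonneg_right (pow_le_one₀ (norm_nonneg w) h1) (by positivity)

theorem term_le {w s : ℂ} {k n : ℕ} {δ : ℝ} (hδ : 0 < δ) (hs : δ ≤ s.re) :
    ‖w ^ n / ((n : ℂ) + s) ^ k‖ ≤ ‖w‖ ^ n / ((n : ℝ) + δ) ^ k := by
  rw [norm_div, norm_pow, norm_pow]
  refine div_le_div_of_nonneg_left (by positivity) (by positivity) (pow_le_pow_left₀ (by positivity) ?_ _)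
  have h1 : ((n : ℂ) + s).re ≤ ‖(n : ℂ) + s‖ := Complex.re_le_norm _
  simp only [Complex.add_re, Complex.natCast_re] at h1
  linarith

theorem lam_an {w : ℂ} {k : ℕ} (h : Ok w k) {z : ℂ} (hz : 0 < z.re) : AnalyticAt ℂ (Lam w k) z := by
  by_cases h' : w = 1 ∧ k = 1
  · have h1 : Lam w k = fun z => -Complex.digamma z := by
      funext z
      simp [Lam, h']
    rw [h1]
    have h2 : AnalyticAt ℂ Complex.Gamma z := Y771.RP.Gamma_analyticAt fun n hn => by
      rw [hn] at hz
      simp at hz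
      have : (0 : ℝ) ≤ n := Nat.cast_nonneg n
      linarith
    exact (h2.deriv.div h2 (Complex.Gamma_ne_zero_of_re_pos hz)).neg
  · have h1 : Lam w k = fun z => ∑' n : ℕ, w ^ n / ((n : ℂ) + z) ^ k := by
      funext z
      simp [Lam, h']
    rw [h1]
    set U : Set ℂ := {s : ℂ | z.re / 2 < s.re} with hU
    have hopen : IsOpen U := isOpen_lt continuous_const Complex.continuous_re
    have hd : DifferentiableOn ℂ (fun s : ℂ => ∑' n : ℕ, w ^ n / ((n : ℂ) + s) ^ k) U := by
      refine Complex.differentiableOn_tsum_of_summable_norm (lam_summable h h' (show 0 < z.re / 2 by linarith)) ?_ hopen ?_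
      · intro n s hs
        refine DifferentiableAt.differentiableWithinAt ?_
        have hne : (n : ℂ) + s ≠ 0 := by
          intro h0
          have h2 := congrArg Complex.re h0
          have h3 : z.re / 2 < s.re := hs
          have h4 : (0 : ℝ) ≤ n := Nat.cast_nonneg n
          simp at h2
          linarith
        exact DifferentiableAt.div (differentiableAt_const _) (by fun_prop) (pow_ne_zero _ hne)
      · intro n s hs
        exact term_le (by linarith) (le_of_lt hs)
    exact hd.analyticAt (hopen.mem_nhds (show z.re / 2 < z.re by linarith))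

theorem lam_step {w : ℂ} {k : ℕ} (h : Ok w k) {z : ℂ} (hz : 0 < z.re) :
    Lam w k (z + 1) = w⁻¹ * Lam w k z + -w⁻¹ / z ^ k := by
  by_cases h' : w = 1 ∧ k = 1
  · simp only [Lam, h', and_self, if_true]
    rw [Complex.digamma_apply_add_one z (fun m hm => by
      rw [hm] at hz
      simp at hz
      have : (0 : ℝ) ≤ m := Nat.cast_nonneg m
      linarith)]
    simp
    ring
  · simp only [Lam, h', if_false]
    have hs : Summable (fun n : ℕ => w ^ n / ((n : ℂ) + z) ^ k) :=
      Summable.of_norm_bounded (lam_summable h h' hz) fun n => term_le hz le_rfl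
    rw [hs.tsum_eq_zero_add]
    have h1 : ∀ n : ℕ, w ^ n / ((n : ℂ) + (z + 1)) ^ k = w⁻¹ * (w ^ (n + 1) / (((n + 1 : ℕ) : ℂ) + z) ^ k) := by
      intro n
      have hw := h.1
      have : ((n : ℂ) + (z + 1)) = ((n + 1 : ℕ) : ℂ) + z := by push_cast; ring
      rw [this, pow_succ]
      field_simp
    simp only [h1]
    rw [tsum_mul_left]
    simp only [pow_zero, Nat.cast_zero, zero_add]
    ring

theorem sum_sub {α : Type} [Fintype α] (p : α → Prop) [DecidablePred p] (g : {a // p a} → ℂ) :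
    ∑ a, g a = ∑ a, if h : p a then g ⟨a, h⟩ else 0 := by
  refine Fintype.sum_of_injective Subtype.val Subtype.val_injective g (fun a => if h : p a then g ⟨a, h⟩ else 0) ?_ ?_
  · intro a ha
    rw [dif_neg]
    intro h
    exact ha ⟨⟨a, h⟩, rfl⟩
  · intro a
    rw [dif_pos a.2]

/-- index set of the admissible sums -/
abbrev Ix {q : ℕ} (W : Fin q → ℂ) (r s : ℕ) : Type := {p : Fin q × (Fin r × Fin s) // Ok (W p.1) ((p.2.2 : ℕ) + 1)}

noncomputable instance {q : ℕ} (W : Fin q → ℂ) (r s : ℕ) : Fintype (Ix W r s) := by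
  classical exact Subtype.fintype _

/-- the functions -/
noncomputable def fun3 {q r s m : ℕ} (W : Fin q → ℂ) (x : Fin r → ℂ) (l : Fin m → ℂ) :
    (Ix W r s) ⊕ (Fin r ⊕ Fin m) → ℂ → ℂ
  | Sum.inl p, z => Lam (W p.1.1) ((p.1.2.2 : ℕ) + 1) (z + x p.1.2.1)
  | Sum.inr (Sum.inl i), z => Complex.Gamma (z + x i)
  | Sum.inr (Sum.inr j), z => Complex.exp (l j * z)

theorem fun3_an {q r s m : ℕ} (W : Fin q → ℂ) (x : Fin r → ℂ) (l : Fin m → ℂ) (y : (Ix W r s) ⊕ (Fin r ⊕ Fin m))
    {z : ℂ} (hz : ∀ i, 0 < (z + x i).re) : AnalyticAt ℂ (fun3 W x l y) z := by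
  have h1 : ∀ i, AnalyticAt ℂ (fun z : ℂ => z + x i) z := fun i => analyticAt_id.add analyticAt_const
  rcases y with p | i | j
  · exact AnalyticAt.comp (g := Lam (W p.1.1) ((p.1.2.2 : ℕ) + 1)) (f := fun z : ℂ => z + x p.1.2.1)
      (lam_an p.2 (hz _)) (h1 _)
  · refine AnalyticAt.comp (g := Complex.Gamma) (f := fun z : ℂ => z + x i) ?_ (h1 _)
    refine Y771.RP.Gamma_analyticAt fun n hn => ?_
    have h2 := hz i
    rw [hn] at h2
    simp at h2
    have : (0 : ℝ) ≤ n := Nat.cast_nonneg n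
    linarith
  · exact (analyticAt_const.mul analyticAt_id).cexp

theorem fun3_ind {q r s m : ℕ} (W : Fin q → ℂ) (hW : Function.Injective W) (x : Fin r → ℂ)
    (hx : ∀ i j (n : ℤ), x i = x j + n → i = j) (l : Fin m → ℂ)
    (hl : ∀ e e' : Fin m → ℕ, Complex.exp (∑ j, e j * l j) = Complex.exp (∑ j, e' j * l j) → e = e')
    (P : MvPolynomial (Option ((Ix W r s) ⊕ (Fin r ⊕ Fin m))) ℂ)
    (hP : ∀ᶠ t : ℝ in atTop, MvPolynomial.eval (fun o : Option ((Ix W r s) ⊕ (Fin r ⊕ Fin m)) =>
      o.elim (t : ℂ) fun y => fun3 W x l y (t : ℂ)) P = 0) : P = 0 := by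
  classical
  have hbig : ∀ᶠ t : ℝ in atTop, ∀ i, 0 < ((t : ℂ) + x i).re := by
    rw [eventually_all]
    intro i
    filter_upwards [eventually_gt_atTop (-(x i).re)] with t ht
    simp
    linarith
  refine concreteC (κ := Ix W r s) (μ := Fin r ⊕ Fin m) (fun p t => Lam (W p.1.1) ((p.1.2.2 : ℕ) + 1) ((t : ℂ) + x p.1.2.1))
    (fun p => (W p.1.1)⁻¹) (fun p => C (-(W p.1.1)⁻¹)) (fun p => (X + C (x p.1.2.1)) ^ ((p.1.2.2 : ℕ) + 1))
    (fun p => inv_ne_zero p.2.1) (fun p => pow_ne_zero _ (X_add_C_ne_zero _)) ?_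
    (Sum.elim (fun i t => Complex.Gamma ((t : ℂ) + x i)) (fun j t => Complex.exp (l j * (t : ℂ))))
    (bb x (fun j => Complex.exp (l j))) (bb_ne x _ fun j => Complex.exp_ne_zero _) ?_ ?_ ?_ ?_ P ?_
  · intro p
    filter_upwards [hbig] with t ht
    have h1 := lam_step p.2 (ht p.1.2.1)
    have h2 : (((t + 1 : ℝ)) : ℂ) + x p.1.2.1 = (t : ℂ) + x p.1.2.1 + 1 := by push_cast; ring
    rw [h2, h1]
    simp
  · rintro (i | j)
    · filter_upwards [hbig] with t ht
      have h2 : (((t + 1 : ℝ)) : ℂ) + x i = (t : ℂ) + x i + 1 := by push_cast; ring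
      show Complex.Gamma ((((t + 1 : ℝ)) : ℂ) + x i) = (X + C (x i)).eval (t : ℂ) * Complex.Gamma ((t : ℂ) + x i)
      rw [h2, Complex.Gamma_add_one _ (fun h0 => by
        have := ht i
        rw [h0] at this
        simp at this)]
      simp
    · refine Eventually.of_forall fun t => ?_
      show Complex.exp (l j * (((t + 1 : ℝ)) : ℂ)) = (C (Complex.exp (l j))).eval (t : ℂ) * Complex.exp (l j * (t : ℂ))
      rw [eval_C, ← Complex.exp_add]
      congr 1
      push_cast
      ring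
  · rintro (i | j)
    · filter_upwards [hbig] with t ht
      exact Complex.Gamma_ne_zero_of_re_pos (ht i)
    · exact Eventually.of_forall fun t => Complex.exp_ne_zero _
  · intro β0 c A B hB hsupp h
    by_contra hc
    obtain ⟨i0, hi0⟩ : ∃ i, c i ≠ 0 := by
      by_contra hcon
      push Not at hcon
      exact hc (funext hcon)
    have hβ0 : (W i0.1.1)⁻¹ = β0 := by
      by_contra hne
      exact hi0 (hsupp i0 hne)
    have hW0 : W i0.1.1 ≠ 0 := i0.2.1
    set j0 := i0.1.1 with hj0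
    have hsupp' : ∀ p : Ix W r s, p.1.1 ≠ j0 → c p = 0 := by
      intro p hp
      apply hsupp
      rw [← hβ0]
      intro h1
      exact hp (hW (inv_injective h1))
    have h1 := fracC_ind r s x hx (fun p => if h : Ok (W j0) ((p.2 : ℕ) + 1) then c ⟨(j0, p), h⟩ * -(W j0)⁻¹ else 0)
      β0 (by rw [← hβ0]; exact inv_ne_zero hW0) A B hB (by
        filter_upwards [h] with t ht
        rw [← ht, sum_sub]
        symm
        rw [Fintype.sum_prod_type, Finset.sum_eq_single j0]
        · refine Finset.sum_congr rfl fun p _ => ?_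
          by_cases h2 : Ok (W j0) ((p.2 : ℕ) + 1)
          · simp only [dif_pos h2]
            simp
            ring
          · simp only [dif_neg h2]
            simp
        · intro j _ hj
          refine Finset.sum_eq_zero fun p _ => ?_
          split_ifs with h2
          · rw [hsupp' _ hj, zero_mul]
          · rfl
        · intro h2
          exact absurd (Finset.mem_univ _) h2)
    have h2 := congrFun h1 i0.1.2
    have h3 : Ok (W j0) ((i0.1.2.2 : ℕ) + 1) := i0.2
    simp only [h3, dif_pos, Pi.zero_apply] at h2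
    exact (mul_ne_zero hi0 (neg_ne_zero.2 (inv_ne_zero hW0))) h2
  · intro e e' A B hA hB h
    refine bb_ind x hx (fun j => Complex.exp (l j)) (fun j => Complex.exp_ne_zero _) (fun e e' h => hl e e' ?_) e e' A B hA hB h
    simpa [Complex.exp_sum, Complex.exp_nat_mul] using h
  · filter_upwards [hP] with t ht
    rw [← ht]
    congr 2
    funext o
    rcases o with _ | (p | (i | j)) <;> rfl

/-- the domain -/
def Dx {r : ℕ} (x : Fin r → ℂ) : Set ℂ := {z | ∀ i, 0 < (z + x i).re}

theorem dx_conv {r : ℕ} (x : Fin r → ℂ) : Convex ℝ (Dx x) := by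
  intro a ha b hb s t hs ht hst i
  have h1 := ha i
  have h2 := hb i
  simp only [Complex.add_re, Complex.real_smul, Complex.mul_re, Complex.ofReal_re, Complex.ofReal_im, zero_mul,
    sub_zero] at *
  rcases hs.eq_or_lt with h | h
  · subst h
    rw [zero_add] at hst
    subst hst
    linarith
  · have h3 : s * (a.re + (x i).re) + t * (b.re + (x i).re) = s * a.re + t * b.re + (x i).re := by
      linear_combination (x i).re * hst
    have h4 := mul_pos h h1
    have h5 := mul_nonneg ht h2.le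
    linarith

/-- local independence -/
theorem fun3_loc {q r s m : ℕ} (W : Fin q → ℂ) (hW : Function.Injective W) (x : Fin r → ℂ)
    (hx : ∀ i j (n : ℤ), x i = x j + n → i = j) (l : Fin m → ℂ)
    (hl : ∀ e e' : Fin m → ℕ, Complex.exp (∑ j, e j * l j) = Complex.exp (∑ j, e' j * l j) → e = e') :
    ∀ t0 ∈ Dx x, Y124.LocInd (fun3 (s := s) W x l) t0 := by
  refine Y771.RP.locInd_of _ (Dx x) (dx_conv x).isPreconnected (fun y t ht => fun3_an W x l y ht) fun P hP => ?_
  refine fun3_ind W hW x hx l hl P ?_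
  have hbig : ∀ᶠ t : ℝ in atTop, ∀ i, 0 < ((t : ℂ) + x i).re := by
    rw [eventually_all]
    intro i
    filter_upwards [eventually_gt_atTop (-(x i).re)] with t ht
    simp
    linarith
  filter_upwards [hbig] with t ht
  exact hP t ht

end Pool.Agent.Q23.DM
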