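import Pool.Agent.Q23.DM.Rem

/-!
# Algebraic independence of solutions of difference equations of order one
-/

set_option autoImplicit false
set_option linter.unusedSectionVars false

open MvPolynomial

namespace Pool.Agent.Q23.DM

open Pool.Agent.Q23.DR

/-- `X_i ↦ w_i X_i`, `φ` on the coefficients -/
noncomputable def diag {κ R : Type} [CommRing R] (φ : R →+* R) (w : κ → R) : MvPolynomial κ R →+* MvPolynomial κ R :=
  eval₂Hom (C.comp φ) (fun i => C (w i) * X i)

/-- the product `∏ w_i^{s_i}` -/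
noncomputable def pr {κ R : Type} [CommRing R] (w : κ → R) (s : κ →₀ ℕ) : R := s.prod fun i n => w i ^ n

theorem pr_add {κ R : Type} [CommRing R] (w : κ → R) (s t : κ →₀ ℕ) : pr w (s + t) = pr w s * pr w t := by
  classical
  exact Finsupp.prod_add_index' (fun _ => pow_zero _) (fun _ _ _ => pow_add _ _ _)

theorem pr_single {κ R : Type} [CommRing R] (w : κ → R) (i : κ) : pr w (Finsupp.single i 1) = w i := by
  simp [pr, Finsupp.prod_single_index]

theorem pr_ne {κ R : Type} [Field R] {w : κ → R} (hw : ∀ i, w i ≠ 0) (s : κ →₀ ℕ) : pr w s ≠ 0 :=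
  Finset.prod_ne_zero_iff.2 fun i _ => pow_ne_zero _ (hw i)

theorem pr_map {κ R R' : Type} [CommRing R] [CommRing R'] (φ : R →+* R') (w : κ → R) (s : κ →₀ ℕ) :
    pr (fun i => φ (w i)) s = φ (pr w s) := by
  simp [pr, Finsupp.prod, map_prod, map_pow]

theorem diag_monomial {κ R : Type} [CommRing R] (φ : R →+* R) (w : κ → R) (s : κ →₀ ℕ) (c : R) :
    diag φ w (monomial s c) = monomial s (pr w s * φ c) := by
  unfold diag
  rw [coe_eval₂Hom, eval₂_monomial]
  have h1 : (s.prod fun i n => (C (w i) * X i : MvPolynomial κ R) ^ n) = C (pr w s) * monomial s 1 := by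
    rw [pr, Finsupp.prod, Finsupp.prod, monomial_eq, map_one, one_mul, map_prod, Finsupp.prod, ← Finset.prod_mul_distrib]
    refine Finset.prod_congr rfl fun i _ => ?_
    rw [mul_pow, map_pow]
  rw [h1, RingHom.comp_apply, ← mul_assoc, ← map_mul, C_mul_monomial, mul_one, mul_comm]

theorem coeff_diag {κ R : Type} [CommRing R] (φ : R →+* R) (w : κ → R) (s : κ →₀ ℕ) (P : MvPolynomial κ R) :
    coeff s (diag φ w P) = pr w s * φ (coeff s P) := by
  classical
  induction P using MvPolynomial.induction_on' with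
  | monomial t c =>
    rw [diag_monomial, coeff_monomial, coeff_monomial]
    split_ifs with h
    · rw [h]
    · simp
  | add P Q hP hQ => rw [map_add, coeff_add, coeff_add, hP, hQ, map_add, mul_add]

variable {κ μ K G : Type} [Fintype κ] [DecidableEq κ] [Fintype μ] [DecidableEq μ] [Field K]

/-- the action on the polynomials in the second variables -/
noncomputable def sR (σ : K →+* K) (b : μ → K) : MvPolynomial μ K →+* MvPolynomial μ K := diag σ b

/-- the action on polynomials -/
noncomputable def tt (σ : K →+* K) (β a : κ → K) (b : μ → K) :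
    MvPolynomial κ (MvPolynomial μ K) →+* MvPolynomial κ (MvPolynomial μ K) :=
  (tau (RingHom.id _) (fun i => C (a i / β i))).comp (diag (sR σ b) (fun i => C (β i)))

theorem tt_C (σ : K →+* K) (β a : κ → K) (b : μ → K) (c : MvPolynomial μ K) : tt σ β a b (C c) = C (sR σ b c) := by
  simp [tt, diag, tau]

theorem tt_X (σ : K →+* K) (β a : κ → K) (b : μ → K) (hβ : ∀ i, β i ≠ 0) (i : κ) :
    tt σ β a b (X i) = C (C (β i)) * X i + C (C (a i)) := by
  simp only [tt, diag, RingHom.comp_apply, coe_eval₂Hom, eval₂_X, map_mul, tau_C, tau_X, RingHom.id_apply]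
  rw [mul_add, ← map_mul, ← map_mul, mul_div_cancel₀ _ (hβ i)]

/-- the coefficients -/
noncomputable def cf (P : MvPolynomial κ (MvPolynomial μ K)) (s : κ →₀ ℕ) (e : μ →₀ ℕ) : K := coeff e (coeff s P)

theorem cf_rho (σ : K →+* K) (β : κ → K) (b : μ → K) (P : MvPolynomial κ (MvPolynomial μ K)) (s : κ →₀ ℕ) (e : μ →₀ ℕ) :
    cf (diag (sR σ b) (fun i => C (β i)) P) s e = pr β s * (pr b e * σ (cf P s e)) := by
  unfold cf sR
  rw [coeff_diag, pr_map (C : K →+* MvPolynomial μ K), coeff_C_mul, coeff_diag]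

theorem dl_rho (σ : K →+* K) (β : κ → K) (b : μ → K) {P : MvPolynomial κ (MvPolynomial μ K)} {n : ℕ} (hP : Dl 0 P n) :
    Dl 0 (diag (sR σ b) (fun i => C (β i)) P) n := by
  intro s hs
  refine hP s fun h => hs ?_
  rw [coeff_diag, h, map_zero, mul_zero]

theorem cf_top (σ : K →+* K) (β a : κ → K) (b : μ → K) {P : MvPolynomial κ (MvPolynomial μ K)} {n : ℕ} (hP : Dl 0 P n)
    {s : κ →₀ ℕ} (hs : n ≤ s.degree) (e : μ →₀ ℕ) :
    cf (tt σ β a b P) s e = pr β s * (pr b e * σ (cf P s e)) := by
  rw [← cf_rho]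
  unfold cf tt
  rw [RingHom.comp_apply, coeff_top _ _ (dl_rho σ β b hP) hs, RingHom.id_apply]

theorem cf_next (σ : K →+* K) (β a : κ → K) (b : μ → K) (hβ : ∀ i, β i ≠ 0) {P : MvPolynomial κ (MvPolynomial μ K)}
    {n : ℕ} (hP : Dl 0 P n) {s : κ →₀ ℕ} (hs : n ≤ s.degree + 1) (e : μ →₀ ℕ) :
    cf (tt σ β a b P) s e = pr β s * pr b e * (σ (cf P s e) +
      ∑ i, a i * (σ (cf P (s + Finsupp.single i 1) e) * ((s i : K) + 1))) := by
  have h1 : cf (tt σ β a b P) s e = cf (diag (sR σ b) (fun i => C (β i)) P) s e +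
      ∑ i, (a i / β i) * (cf (diag (sR σ b) (fun i => C (β i)) P) (s + Finsupp.single i 1) e * ((s i : K) + 1)) := by
    unfold cf tt
    rw [RingHom.comp_apply, coeff_next _ _ (dl_rho σ β b hP) hs, RingHom.id_apply, coeff_add, coeff_sum]
    congr 1
    refine Finset.sum_congr rfl fun i _ => ?_
    rw [RingHom.id_apply, coeff_C_mul]
    have h2 : ((s i : MvPolynomial μ K) + 1) = C ((s i : K) + 1) := by simp
    rw [h2, mul_comm _ (C _), coeff_C_mul]
    ring
  rw [h1, cf_rho]
  simp only [cf_rho, pr_add, pr_single]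
  rw [mul_add, Finset.mul_sum]
  congr 1
  · ring
  · refine Finset.sum_congr rfl fun i _ => ?_
    have := hβ i
    field_simp

variable [CommRing G] [Nontrivial G] [Algebra K G]

/-- evaluation -/
noncomputable def EE (f : κ → G) (g : μ → G) : MvPolynomial κ (MvPolynomial μ K) →+* G :=
  eval₂Hom (aeval g : MvPolynomial μ K →ₐ[K] G).toRingHom f

theorem EE_tt (σ : K →+* K) (S : G →+* G) (hS : ∀ x : K, S (algebraMap K G x) = algebraMap K G (σ x))
    (f : κ → G) (β a : κ → K) (hβ : ∀ i, β i ≠ 0)
    (hf : ∀ i, S (f i) = algebraMap K G (β i) * f i + algebraMap K G (a i))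
    (g : μ → G) (b : μ → K) (hg : ∀ j, S (g j) = algebraMap K G (b j) * g j)
    (P : MvPolynomial κ (MvPolynomial μ K)) : EE f g (tt σ β a b P) = S (EE f g P) := by
  have h0 : (EE f g).comp (tt σ β a b) = S.comp (EE f g : MvPolynomial κ (MvPolynomial μ K) →+* G) := by
    refine MvPolynomial.ringHom_ext ?_ ?_
    · intro c
      simp only [RingHom.comp_apply, tt_C]
      have h1 : ∀ c : MvPolynomial μ K, (EE f g) (C c : MvPolynomial κ (MvPolynomial μ K)) = aeval g c := by
        intro c
        simp [EE]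
      rw [h1, h1]
      have h2 : ((aeval g : MvPolynomial μ K →ₐ[K] G).toRingHom).comp (sR σ b) =
          S.comp (aeval g : MvPolynomial μ K →ₐ[K] G).toRingHom := by
        refine MvPolynomial.ringHom_ext ?_ ?_
        · intro x
          simp [sR, diag, hS]
        · intro j
          simp [sR, diag, hg]
      exact RingHom.congr_fun h2 c
    · intro i
      simp only [RingHom.comp_apply, tt_X σ β a b hβ, map_add, map_mul]
      simp [EE, hf]
  exact RingHom.congr_fun h0 P

/-- **Solutions of difference equations of order one.** -/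
theorem mixInd [CharZero K] (σ : K →+* K) (S : G →+* G) (hS : ∀ x : K, S (algebraMap K G x) = algebraMap K G (σ x))
    (f : κ → G) (β a : κ → K) (hβ : ∀ i, β i ≠ 0)
    (hf : ∀ i, S (f i) = algebraMap K G (β i) * f i + algebraMap K G (a i))
    (g : μ → G) (b : μ → K) (hb : ∀ j, b j ≠ 0) (hg : ∀ j, S (g j) = algebraMap K G (b j) * g j)
    (hu : ∀ j, IsUnit (g j))
    (hA : ∀ (i0 : κ) (c : κ → K) (h : K), c i0 ≠ 0 → (∀ i, β i * σ (c i) = β i0 * c i) →
      ∑ i, a i * σ (c i) ≠ β i0 * h - σ h)
    (hM : ∀ (e e' : μ →₀ ℕ) (c : K), c ≠ 0 → pr b e * σ c = pr b e' * c → e = e') :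
    AlgebraicIndependent K (Sum.elim f g) := by
  classical
  suffices key : ∀ P : MvPolynomial κ (MvPolynomial μ K), EE f g P = 0 → P = 0 by
    rw [algebraicIndependent_iff]
    intro p hp
    have h1 : EE f g (sumRingEquiv K κ μ p) = aeval (Sum.elim f g) p := by
      have h2 : (EE f g).comp (sumRingEquiv K κ μ).toRingHom = (aeval (Sum.elim f g) : _ →ₐ[K] G).toRingHom := by
        refine MvPolynomial.ringHom_ext ?_ ?_
        · intro x
          simp [EE]
        · rintro (i | j)
          · simp [EE]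
          · simp [EE]
      exact RingHom.congr_fun h2 p
    have h3 := key _ (h1.trans hp)
    exact (map_eq_zero_iff _ (sumRingEquiv K κ μ).injective).1 h3
  by_contra hcon
  push Not at hcon
  let I : Set (MvPolynomial κ (MvPolynomial μ K)) := {P | EE f g P = 0 ∧ P ≠ 0}
  have hI : I.Nonempty := hcon
  let top : MvPolynomial κ (MvPolynomial μ K) → Finset (Σ _ : κ →₀ ℕ, μ →₀ ℕ) := fun P =>
    (P.support.filter fun s => s.degree = P.totalDegree).sigma fun s => (coeff s P).support
  have hmtop : ∀ P z, z ∈ top P ↔ z.1.degree = P.totalDegree ∧ cf P z.1 z.2 ≠ 0 := by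
    intro P z
    simp only [top, Finset.mem_sigma, Finset.mem_filter, MvPolynomial.mem_support_iff, cf]
    constructor
    · rintro ⟨⟨_, h1⟩, h2⟩
      exact ⟨h1, h2⟩
    · rintro ⟨h1, h2⟩
      refine ⟨⟨fun h => h2 ?_, h1⟩, h2⟩
      rw [h, coeff_zero]
  let ν : MvPolynomial κ (MvPolynomial μ K) → ℕ ×ₗ ℕ := fun P => toLex (P.totalDegree, (top P).card)
  obtain ⟨P, hP, hmin⟩ : ∃ P ∈ I, ∀ Q ∈ I, ¬ ν Q < ν P :=
    ⟨Function.argminOn ν I hI, Function.argminOn_mem ν I hI, fun Q hQ => Function.not_lt_argminOn ν I hQ⟩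
  obtain ⟨hP0, hPne⟩ := hP
  have hdl : ∀ Q : MvPolynomial κ (MvPolynomial μ K), Dl 0 Q Q.totalDegree := fun Q s hs =>
    le_totalDegree (MvPolynomial.mem_support_iff.2 hs)
  have hle : ∀ (Q : MvPolynomial κ (MvPolynomial μ K)) (n : ℕ), Dl 0 Q n → Q.totalDegree ≤ n := fun Q n hQ =>
    Finset.sup_le fun s hs => hQ s (MvPolynomial.mem_support_iff.1 hs)
  -- a monomial of top degree
  obtain ⟨s0, e0, hs0d, hc0⟩ : ∃ s0 e0, s0.degree = P.totalDegree ∧ cf P s0 e0 ≠ 0 := by
    obtain ⟨s, hs, hs'⟩ := Finset.exists_mem_eq_sup P.support (MvPolynomial.support_nonempty.2 hPne)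
      (fun s => s.sum fun _ e => e)
    obtain ⟨e, he⟩ := MvPolynomial.support_nonempty.2 (MvPolynomial.mem_support_iff.1 hs)
    exact ⟨s, e, hs'.symm, MvPolynomial.mem_support_iff.1 he⟩
  set n := P.totalDegree with hn
  -- normalisation
  set P' := C (C (cf P s0 e0)⁻¹) * P with hP'
  have hco : ∀ s e, cf P' s e = (cf P s0 e0)⁻¹ * cf P s e := fun s e => by
    rw [hP']
    unfold cf
    rw [coeff_C_mul, coeff_C_mul]
  have hdl' : Dl 0 P' n := (hdl P).C_mul _
  have hP'0 : EE f g P' = 0 := by rw [hP', map_mul, hP0, mul_zero]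
  have hone : cf P' s0 e0 = 1 := by rw [hco, inv_mul_cancel₀ hc0]
  set lam := pr β s0 * pr b e0 with hlam
  have hlam0 : lam ≠ 0 := mul_ne_zero (pr_ne hβ _) (pr_ne hb _)
  -- the difference
  have hQ : tt σ β a b P' - C (C lam) * P' = 0 := by
    by_contra hQne
    have hQI : tt σ β a b P' - C (C lam) * P' ∈ I := by
      refine ⟨?_, hQne⟩
      rw [map_sub, EE_tt σ S hS f β a hβ hf g b hg, map_mul (EE f g) (C (C lam)), hP'0, map_zero, mul_zero, sub_zero]
    have hQc : ∀ (s : κ →₀ ℕ) (e : μ →₀ ℕ), n ≤ s.degree → cf (tt σ β a b P' - C (C lam) * P') s e =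
        pr β s * (pr b e * σ (cf P' s e)) - lam * cf P' s e := by
      intro s e hs
      rw [← cf_top σ β a b hdl' hs e]
      unfold cf
      rw [coeff_sub, coeff_C_mul, coeff_sub, coeff_C_mul]
    have hcf0 : ∀ (s : κ →₀ ℕ) (e : μ →₀ ℕ), n < s.degree → cf P' s e = 0 := by
      intro s e hs
      have : coeff s P' = 0 := by
        by_contra hne
        have := hdl' s hne
        omega
      unfold cf
      rw [this, coeff_zero]
    have hQd : Dl 0 (tt σ β a b P' - C (C lam) * P') n := by
      intro s hs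
      by_contra hlt
      apply hs
      ext e
      have h1 := hQc s e (by omega)
      rw [hcf0 s e (by omega), map_zero, mul_zero, mul_zero, mul_zero, sub_zero] at h1
      rw [coeff_zero]
      exact h1
    have hQt := hle _ n hQd
    rcases lt_or_eq_of_le hQt with hlt | heq
    · refine hmin _ hQI ?_
      exact Prod.Lex.toLex_lt_toLex.2 (Or.inl hlt)
    · refine hmin _ hQI ?_
      refine Prod.Lex.toLex_lt_toLex.2 (Or.inr ⟨heq, ?_⟩)
      refine Finset.card_lt_card ?_
      rw [Finset.ssubset_iff_of_subset]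
      · refine ⟨⟨s0, e0⟩, (hmtop P _).2 ⟨hs0d, hc0⟩, ?_⟩
        intro hmem
        rw [hmtop] at hmem
        apply hmem.2
        rw [hQc s0 e0 (by omega), hone, map_one]
        simp [hlam]
      · rintro ⟨s, e⟩ hs
        rw [hmtop] at hs ⊢
        simp only at hs ⊢
        refine ⟨by rw [hs.1, heq], ?_⟩
        intro hne
        apply hs.2
        rw [hQc s e (by rw [hs.1]; exact heq.ge), hco, hne]
        simp
  have htau : tt σ β a b P' = C (C lam) * P' := sub_eq_zero.1 hQ
  have hcfl : ∀ s e, cf (C (C lam) * P') s e = lam * cf P' s e := by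
    intro s e
    unfold cf
    rw [coeff_C_mul, coeff_C_mul]
  -- coefficients of top degree
  have hrel : ∀ (s : κ →₀ ℕ) (e : μ →₀ ℕ), n ≤ s.degree → pr β s * (pr b e * σ (cf P' s e)) = lam * cf P' s e := by
    intro s e hs
    rw [← cf_top σ β a b hdl' hs, htau, hcfl]
  rcases Nat.eq_zero_or_pos n with hn0 | hn0
  · -- constant in the first variables
    have hs00 : s0 = 0 := (Finsupp.degree_eq_zero_iff s0).1 (by omega)
    have hp : P' = C (monomial e0 1) := by
      refine MvPolynomial.ext _ _ fun s => ?_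
      by_cases hs : s = 0
      · subst hs
        rw [coeff_C, if_pos rfl]
        refine MvPolynomial.ext _ _ fun e => ?_
        rw [coeff_monomial]
        split_ifs with he
        · rw [← he]
          have := hone
          rw [hs00] at this
          exact this
        · by_contra hne
          apply he
          have h1 := hrel 0 e (by simp [hn0])
          rw [hlam, hs00] at h1
          have h2 : pr β (0 : κ →₀ ℕ) = 1 := by simp [pr]
          rw [h2, one_mul, one_mul] at h1
          exact (hM e e0 (cf P' 0 e) hne h1).symm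
      · have h1 : coeff s P' = 0 := by
          by_contra hne
          have := hdl' s hne
          rw [hn0] at this
          exact hs ((Finsupp.degree_eq_zero_iff s).1 (by omega))
        rw [h1, coeff_C, if_neg (Ne.symm hs)]
    have h2 : EE f g P' = e0.prod fun j n => g j ^ n := by
      rw [hp]
      simp [EE, aeval_monomial]
    rw [h2] at hP'0
    have h3 : IsUnit (e0.prod fun j n => g j ^ n) := by
      rw [Finsupp.prod]
      exact Finset.prod_induction _ IsUnit (fun _ _ h h' => h.mul h') isUnit_one fun j _ => (hu j).pow _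
    rw [hP'0] at h3
    exact not_isUnit_zero h3
  · obtain ⟨i0, hi0⟩ : ∃ i, s0 i ≠ 0 := by
      by_contra hcon
      push Not at hcon
      have : s0 = 0 := Finsupp.ext hcon
      rw [this] at hs0d
      simp at hs0d
      omega
    set s1 := s0 - Finsupp.single i0 1 with hs1
    have hadd : s1 + Finsupp.single i0 1 = s0 := by
      apply tsub_add_cancel_of_le
      rw [Finsupp.single_le_iff]
      exact Nat.one_le_iff_ne_zero.2 hi0
    have hdeg : s0.degree = s1.degree + 1 := by
      conv_lhs => rw [← hadd]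
      rw [map_add, Finsupp.degree_single]
    have hprs : pr β s0 = pr β s1 * β i0 := by rw [← hadd, pr_add, pr_single]
    have hnext := cf_next σ β a b hβ hdl' (s := s1) (by omega) e0
    rw [htau, hcfl] at hnext
    have hb0 : pr β s1 * pr b e0 ≠ 0 := mul_ne_zero (pr_ne hβ _) (pr_ne hb _)
    refine hA i0 (fun i => cf P' (s1 + Finsupp.single i 1) e0 * ((s1 i : K) + 1)) (cf P' s1 e0) ?_ ?_ ?_
    · simp only [hadd, hone, one_mul]
      have h3 : ((s1 i0 + 1 : ℕ) : K) ≠ 0 := Nat.cast_ne_zero.2 (Nat.succ_ne_zero _)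
      push_cast at h3
      exact h3
    · intro i
      have h1 := hrel (s1 + Finsupp.single i 1) e0 (by rw [map_add, Finsupp.degree_single]; omega)
      rw [pr_add, pr_single, hlam, hprs] at h1
      have h2 : pr β s1 * pr b e0 * (β i * σ (cf P' (s1 + Finsupp.single i 1) e0)) =
          pr β s1 * pr b e0 * (β i0 * cf P' (s1 + Finsupp.single i 1) e0) := by
        linear_combination h1
      have h3 := mul_left_cancel₀ hb0 h2
      rw [map_mul, map_add, map_natCast, map_one]
      linear_combination ((s1 i : K) + 1) * h3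
    · have h1 : pr β s1 * pr b e0 * (β i0 * cf P' s1 e0) = pr β s1 * pr b e0 * (σ (cf P' s1 e0) +
        ∑ i, a i * (σ (cf P' (s1 + Finsupp.single i 1) e0) * ((s1 i : K) + 1))) := by
        rw [← hnext, hlam, hprs]
        ring
      have h2 := mul_left_cancel₀ hb0 h1
      have h3 : ∑ i, a i * σ (cf P' (s1 + Finsupp.single i 1) e0 * ((s1 i : K) + 1)) =
          ∑ i, a i * (σ (cf P' (s1 + Finsupp.single i 1) e0) * ((s1 i : K) + 1)) := by
        refine Finset.sum_congr rfl fun i _ => ?_
        rw [map_mul, map_add, map_natCast, map_one]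
      rw [h3, h2]
      ring

end Pool.Agent.Q23.DM
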