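import Mathlib

/-!
# Translations of polynomials over a commutative ring
-/

set_option autoImplicit false
set_option linter.unusedSectionVars false

open MvPolynomial

namespace Pool.Agent.Q23.DR

variable {κ K : Type} [Fintype κ] [DecidableEq κ] [CommRing K]

/-- all monomials of `P` have degree at most `n - k` -/
def Dl (k : ℕ) (P : MvPolynomial κ K) (n : ℕ) : Prop := ∀ s, coeff s P ≠ 0 → s.degree + k ≤ n

theorem Dl.add {k n : ℕ} {P Q : MvPolynomial κ K} (hP : Dl k P n) (hQ : Dl k Q n) : Dl k (P + Q) n := by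
  intro s hs
  by_cases h : coeff s P = 0
  · exact hQ s (by intro h'; apply hs; rw [coeff_add, h, h', add_zero])
  · exact hP s h

theorem Dl.neg {k n : ℕ} {P : MvPolynomial κ K} (hP : Dl k P n) : Dl k (-P) n := by
  intro s hs
  exact hP s (by intro h'; apply hs; rw [coeff_neg, h', neg_zero])

theorem Dl.sub {k n : ℕ} {P Q : MvPolynomial κ K} (hP : Dl k P n) (hQ : Dl k Q n) : Dl k (P - Q) n := by
  rw [sub_eq_add_neg]
  exact hP.add hQ.neg

theorem Dl.zero {k n : ℕ} : Dl k (0 : MvPolynomial κ K) n := fun s hs => absurd (coeff_zero s) hs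

theorem Dl.sum {ι : Type} {k n : ℕ} {S : Finset ι} {P : ι → MvPolynomial κ K} (h : ∀ i ∈ S, Dl k (P i) n) :
    Dl k (∑ i ∈ S, P i) n := by
  classical
  induction S using Finset.induction_on with
  | empty => simpa using Dl.zero
  | insert a S ha ih =>
    rw [Finset.sum_insert ha]
    exact (h a (Finset.mem_insert_self _ _)).add (ih fun i hi => h i (Finset.mem_insert_of_mem hi))

theorem Dl.C_mul {k n : ℕ} {P : MvPolynomial κ K} (c : K) (hP : Dl k P n) : Dl k (C c * P) n := by
  intro s hs
  exact hP s (by intro h'; apply hs; rw [coeff_C_mul, h', mul_zero])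

theorem Dl.mul_C {k n : ℕ} {P : MvPolynomial κ K} (c : K) (hP : Dl k P n) : Dl k (P * C c) n := by
  rw [mul_comm]
  exact hP.C_mul c

theorem Dl.mono {k k' n n' : ℕ} {P : MvPolynomial κ K} (hP : Dl k P n) (h : k' + n ≤ k + n') : Dl k' P n' := by
  intro s hs
  have := hP s hs
  omega

theorem Dl.mul_X {k n : ℕ} {P : MvPolynomial κ K} (j : κ) (hP : Dl k P n) : Dl k (P * X j) (n + 1) := by
  intro s hs
  rw [coeff_mul_X'] at hs
  split_ifs at hs with h
  · have h1 := hP _ hs
    have h2 : (s - Finsupp.single j 1) + Finsupp.single j 1 = s := by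
      apply tsub_add_cancel_of_le
      rw [Finsupp.single_le_iff]
      exact Nat.one_le_iff_ne_zero.2 (Finsupp.mem_support_iff.1 h)
    have h3 : s.degree = (s - Finsupp.single j 1).degree + 1 := by
      conv_lhs => rw [← h2]
      rw [map_add, Finsupp.degree_single]
    omega
  · exact absurd rfl hs

theorem Dl.pderiv {k n : ℕ} {P : MvPolynomial κ K} (i : κ) (hP : Dl k P n) : Dl (k + 1) (MvPolynomial.pderiv i P) n := by
  intro s hs
  rw [coeff_pderiv] at hs
  have h1 := hP _ (left_ne_zero_of_mul hs)
  rw [map_add, Finsupp.degree_single] at h1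
  omega

theorem Dl.map {k n : ℕ} {P : MvPolynomial κ K} (σ : K →+* K) (hP : Dl k P n) : Dl k (MvPolynomial.map σ P) n := by
  intro s hs
  refine hP s fun h => hs ?_
  rw [coeff_map, h, map_zero]

/-- the shift on polynomials -/
noncomputable def tau (σ : K →+* K) (a : κ → K) : MvPolynomial κ K →+* MvPolynomial κ K :=
  eval₂Hom (C.comp σ) (fun i => X i + C (a i))

theorem tau_C (σ : K →+* K) (a : κ → K) (c : K) : tau σ a (C c) = C (σ c) := by simp [tau]

theorem tau_X (σ : K →+* K) (a : κ → K) (i : κ) : tau σ a (X i) = X i + C (a i) := by simp [tau]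

/-- the remainder of Taylor's formula of order one -/
noncomputable def rem (σ : K →+* K) (a : κ → K) (P : MvPolynomial κ K) : MvPolynomial κ K :=
  tau σ a P - MvPolynomial.map σ P - ∑ i, C (a i) * MvPolynomial.pderiv i (MvPolynomial.map σ P)

theorem rem_add (σ : K →+* K) (a : κ → K) (P Q : MvPolynomial κ K) : rem σ a (P + Q) = rem σ a P + rem σ a Q := by
  unfold rem
  simp only [map_add, mul_add, Finset.sum_add_distrib]
  ring

theorem rem_mul_X (σ : K →+* K) (a : κ → K) (P : MvPolynomial κ K) (j : κ) :
    rem σ a (P * X j) = (∑ i, C (a i) * MvPolynomial.pderiv i (MvPolynomial.map σ P)) * C (a j) +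
      (rem σ a P * X j + rem σ a P * C (a j)) := by
  have h1 : ∑ i, C (a i) * MvPolynomial.pderiv i (MvPolynomial.map σ P * X j) =
      (∑ i, C (a i) * MvPolynomial.pderiv i (MvPolynomial.map σ P)) * X j + C (a j) * MvPolynomial.map σ P := by
    simp only [Derivation.leibniz, pderiv_X, smul_eq_mul, mul_add, Finset.sum_add_distrib, Finset.sum_mul]
    rw [Finset.sum_eq_single j]
    · simp only [Pi.single_eq_same, mul_one]
      rw [add_comm]
      congr 1
      exact Finset.sum_congr rfl fun i _ => by ring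
    · intro i _ hi
      rw [Pi.single_eq_of_ne' hi]
      simp
    · intro h
      exact absurd (Finset.mem_univ _) h
  unfold rem
  rw [map_mul, map_mul, MvPolynomial.map_X, h1, tau_X]
  ring

theorem rem_dl_mon (σ : K →+* K) (a : κ → K) (s : κ →₀ ℕ) (c : K) : ∀ n, Dl 0 (monomial s c) n →
    Dl 2 (rem σ a (monomial s c)) n := by
  refine induction_on_monomial (motive := fun P => ∀ n, Dl 0 P n → Dl 2 (rem σ a P) n) ?_ ?_ s c
  · intro c n _
    have : rem σ a (C c) = 0 := by
      unfold rem
      simp [tau_C]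
    rw [this]
    exact Dl.zero
  · intro P j ih n hP
    by_cases h0 : P = 0
    · rw [h0, zero_mul]
      have : rem σ a (0 : MvPolynomial κ K) = 0 := by unfold rem; simp
      rw [this]
      exact Dl.zero
    · have h1 : ∀ s, coeff s P ≠ 0 → s.degree + 1 ≤ n := by
        intro s hs
        have := hP (s + Finsupp.single j 1) (by rwa [coeff_mul_X])
        rw [map_add, Finsupp.degree_single] at this
        omega
      obtain ⟨s0, hs0⟩ := MvPolynomial.ne_zero_iff.1 h0
      have hn : 1 ≤ n := by
        have := h1 s0 hs0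
        omega
      have hP' : Dl 0 P (n - 1) := fun s hs => by
        have := h1 s hs
        omega
      have h2 := ih (n - 1) hP'
      rw [rem_mul_X]
      refine Dl.add ?_ (Dl.add ?_ ?_)
      · refine Dl.mul_C _ (Dl.sum fun i _ => Dl.C_mul _ ?_)
        exact (hP'.map σ).pderiv i |>.mono (by omega)
      · exact (h2.mul_X j).mono (by omega)
      · exact (h2.mul_C _).mono (by omega)

theorem rem_dl (σ : K →+* K) (a : κ → K) (P : MvPolynomial κ K) (n : ℕ) (hP : Dl 0 P n) : Dl 2 (rem σ a P) n := by
  classical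
  have hsum : ∀ S : Finset (κ →₀ ℕ), (∀ s ∈ S, coeff s P ≠ 0) →
      Dl 2 (rem σ a (∑ s ∈ S, monomial s (coeff s P))) n := by
    intro S
    induction S using Finset.induction_on with
    | empty =>
      intro _
      have : rem σ a (0 : MvPolynomial κ K) = 0 := by unfold rem; simp
      rw [Finset.sum_empty, this]
      exact Dl.zero
    | insert t S ht ih =>
      intro h
      rw [Finset.sum_insert ht, rem_add]
      refine Dl.add ?_ (ih fun s hs => h s (Finset.mem_insert_of_mem hs))
      refine rem_dl_mon σ a t _ n ?_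
      intro s hs
      rw [coeff_monomial] at hs
      split_ifs at hs with h'
      · rw [← h']
        exact hP t (h t (Finset.mem_insert_self _ _))
      · exact absurd rfl hs
  have h := hsum P.support (fun s hs => MvPolynomial.mem_support_iff.1 hs)
  rwa [MvPolynomial.support_sum_monomial_coeff] at h

theorem tau_eq (σ : K →+* K) (a : κ → K) (P : MvPolynomial κ K) :
    tau σ a P = MvPolynomial.map σ P + ∑ i, C (a i) * MvPolynomial.pderiv i (MvPolynomial.map σ P) + rem σ a P := by
  unfold rem
  ring

theorem coeff_top (σ : K →+* K) (a : κ → K) {P : MvPolynomial κ K} {n : ℕ} (hP : Dl 0 P n) {s : κ →₀ ℕ}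
    (hs : n ≤ s.degree) : coeff s (tau σ a P) = σ (coeff s P) := by
  rw [tau_eq, coeff_add, coeff_add, coeff_map]
  have h1 : coeff s (∑ i, C (a i) * MvPolynomial.pderiv i (MvPolynomial.map σ P)) = 0 := by
    have : Dl 1 (∑ i, C (a i) * MvPolynomial.pderiv i (MvPolynomial.map σ P)) n :=
      Dl.sum fun i _ => Dl.C_mul _ ((hP.map σ).pderiv i)
    by_contra h
    have := this s h
    omega
  have h2 : coeff s (rem σ a P) = 0 := by
    by_contra h
    have := rem_dl σ a P n hP s h
    omega
  rw [h1, h2, add_zero, add_zero]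

theorem coeff_next (σ : K →+* K) (a : κ → K) {P : MvPolynomial κ K} {n : ℕ} (hP : Dl 0 P n) {s : κ →₀ ℕ}
    (hs : n ≤ s.degree + 1) : coeff s (tau σ a P) = σ (coeff s P) +
      ∑ i, a i * (σ (coeff (s + Finsupp.single i 1) P) * ((s i : K) + 1)) := by
  rw [tau_eq, coeff_add, coeff_add, coeff_map, coeff_sum]
  have h2 : coeff s (rem σ a P) = 0 := by
    by_contra h
    have := rem_dl σ a P n hP s h
    omega
  rw [h2, add_zero]
  congr 1
  refine Finset.sum_congr rfl fun i _ => ?_
  rw [coeff_C_mul, coeff_pderiv, coeff_map]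

end Pool.Agent.Q23.DR
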